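import Pool.Agent.VHG.Defs

/-!
# VHD/Defs : folded patches of square tiles and simulation of one tile set by another

Project for `MP_720b7c_al` (helper33, on top of helper79's construction).  A folded patch of a set of
square tiles is a rectangle filled with tiles, where every column has a horizontal and every row a
vertical orientation; adjacent sides have equal labels, and the two tiles on both sides of a fold
are different.  `Sim S S' N` : the tiles of `S` form unique `N × N` blocks which behave like the tiles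
of `S'`, and a fold cannot occur inside a block.
-/

set_option autoImplicit false

namespace Pool.Agent.VHG

/-- reflection at the diagonal -/
def Tiles.tr {T V H : Type} (S : Tiles T V H) : Tiles T H V := ⟨S.B, S.U, S.L, S.R⟩

end Pool.Agent.VHG

namespace Pool.Agent.VHD

export Pool.Agent.VHG (Tiles)

open Pool.Agent.VHG

variable {T V H T' V' H' : Type}

/-- A folded patch on `[0,m) × [0,n)`: every column `i` has a horizontal orientation `ex i`, every row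
`j` a vertical orientation `ey j`; labels match; at a fold the two adjacent tiles are different. -/
structure Folded (S : Tiles T V H) (m n : ℤ) (F : ℤ → ℤ → T) (ex ey : ℤ → Bool) : Prop where
  h : ∀ i j, 0 ≤ i → i + 1 < m → 0 ≤ j → j < n →
    S.rt (ex i) (F i j) = S.lt (ex (i + 1)) (F (i + 1) j)
  v : ∀ i j, 0 ≤ i → i < m → 0 ≤ j → j + 1 < n →
    S.up (ey j) (F i j) = S.dn (ey (j + 1)) (F i (j + 1))
  hf : ∀ i j, 0 ≤ i → i + 1 < m → 0 ≤ j → j < n → ex i ≠ ex (i + 1) → F i j ≠ F (i + 1) j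
  vf : ∀ i j, 0 ≤ i → i < m → 0 ≤ j → j + 1 < n → ey j ≠ ey (j + 1) → F i j ≠ F i (j + 1)

/-- there is no folded patch of size `m × m` -/
def NoFolded (S : Tiles T V H) (m : ℤ) : Prop :=
  ∀ (F : ℤ → ℤ → T) (ex ey : ℤ → Bool), ¬ Folded S m m F ex ey

/-- there is an unfolded `n × n` patch -/
def HasPatch (S : Tiles T V H) (n : ℕ) : Prop :=
  ∃ F : ℕ → ℕ → T,
    (∀ i j, i + 1 < n → j < n → S.R (F i j) = S.L (F (i + 1) j)) ∧
    (∀ i j, i < n → j + 1 < n → S.U (F i j) = S.B (F i (j + 1)))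

/-- `u` is a matched patch on the box `[x0,x1] × [y0,y1]` -/
structure Patch (S : Tiles T V H) (u : ℕ → ℕ → T) (x0 x1 y0 y1 : ℕ) : Prop where
  h : ∀ x y, x0 ≤ x → x < x1 → y0 ≤ y → y ≤ y1 → S.R (u x y) = S.L (u (x + 1) y)
  v : ∀ x y, x0 ≤ x → x ≤ x1 → y0 ≤ y → y < y1 → S.U (u x y) = S.B (u x (y + 1))

/-- the right side of column `x`, rows `y0..y1`, cannot carry a fold -/
def RichR (S : Tiles T V H) (u : ℕ → ℕ → T) (x y0 y1 : ℕ) : Prop :=
  ∀ w : ℕ → T, (∀ y, y0 ≤ y → y ≤ y1 → S.R (w y) = S.R (u x y)) →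
    (∀ y, y0 ≤ y → y < y1 → S.U (w y) = S.B (w (y + 1))) →
    ∃ y, y0 ≤ y ∧ y ≤ y1 ∧ w y = u x y
/-- the left side of column `x`, rows `y0..y1`, cannot carry a fold -/
def RichL (S : Tiles T V H) (u : ℕ → ℕ → T) (x y0 y1 : ℕ) : Prop :=
  ∀ w : ℕ → T, (∀ y, y0 ≤ y → y ≤ y1 → S.L (w y) = S.L (u x y)) →
    (∀ y, y0 ≤ y → y < y1 → S.U (w y) = S.B (w (y + 1))) →
    ∃ y, y0 ≤ y ∧ y ≤ y1 ∧ w y = u x y
/-- the upper side of row `y`, columns `x0..x1`, cannot carry a fold -/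
def RichU (S : Tiles T V H) (u : ℕ → ℕ → T) (x0 x1 y : ℕ) : Prop :=
  ∀ w : ℕ → T, (∀ x, x0 ≤ x → x ≤ x1 → S.U (w x) = S.U (u x y)) →
    (∀ x, x0 ≤ x → x < x1 → S.R (w x) = S.L (w (x + 1))) →
    ∃ x, x0 ≤ x ∧ x ≤ x1 ∧ w x = u x y
/-- the lower side of row `y`, columns `x0..x1`, cannot carry a fold -/
def RichB (S : Tiles T V H) (u : ℕ → ℕ → T) (x0 x1 y : ℕ) : Prop :=
  ∀ w : ℕ → T, (∀ x, x0 ≤ x → x ≤ x1 → S.B (w x) = S.B (u x y)) →
    (∀ x, x0 ≤ x → x < x1 → S.R (w x) = S.L (w (x + 1))) →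
    ∃ x, x0 ≤ x ∧ x ≤ x1 ∧ w x = u x y

/-- Positions of the tiles in their `N × N` block, visible on all sides (at a fold too). -/
structure Pos (S : Tiles T V H) (N : ℕ) where
  px : T → ℕ
  py : T → ℕ
  px_lt : ∀ t, px t < N
  py_lt : ∀ t, py t < N
  RL : ∀ s t, S.R s = S.L t → px t = (px s + 1) % N ∧ py t = py s
  UB : ∀ s t, S.U s = S.B t → px t = px s ∧ py t = (py s + 1) % N
  RR : ∀ s t, S.R s = S.R t → px s = px t ∧ py s = py t
  LL : ∀ s t, S.L s = S.L t → px s = px t ∧ py s = py t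
  UU : ∀ s t, S.U s = S.U t → px s = px t ∧ py s = py t
  BB : ∀ s t, S.B s = S.B t → px s = px t ∧ py s = py t

/-- Richness: folds cannot occur inside a block. -/
structure Rich (S : Tiles T V H) (N : ℕ) (P : Pos S N) : Prop where
  /-- every box which is neither full width nor full height has a rich side off the block boundary -/
  rich_box : ∀ (u : ℕ → ℕ → T) (x0 x1 y0 y1 : ℕ), x0 ≤ x1 → x1 < N → y0 ≤ y1 → y1 < N →
    ¬ (x0 = 0 ∧ x1 + 1 = N) → ¬ (y0 = 0 ∧ y1 + 1 = N) →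
    (∀ x y, x0 ≤ x → x ≤ x1 → y0 ≤ y → y ≤ y1 → P.px (u x y) = x ∧ P.py (u x y) = y) →
    Patch S u x0 x1 y0 y1 →
    (x1 + 1 < N ∧ RichR S u x1 y0 y1) ∨ (0 < x0 ∧ RichL S u x0 y0 y1) ∨
    (y1 + 1 < N ∧ RichU S u x0 x1 y1) ∨ (0 < y0 ∧ RichB S u x0 x1 y0)
  /-- full interior lines are rich on both sides -/
  rich_R : ∀ (u : ℕ → ℕ → T) (x : ℕ), x + 1 < N →
    (∀ y, y < N → P.px (u x y) = x ∧ P.py (u x y) = y) → Patch S u x x 0 (N - 1) →
    RichR S u x 0 (N - 1)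
  rich_L : ∀ (u : ℕ → ℕ → T) (x : ℕ), 0 < x → x < N →
    (∀ y, y < N → P.px (u x y) = x ∧ P.py (u x y) = y) → Patch S u x x 0 (N - 1) →
    RichL S u x 0 (N - 1)
  rich_U : ∀ (u : ℕ → ℕ → T) (y : ℕ), y + 1 < N →
    (∀ x, x < N → P.px (u x y) = x ∧ P.py (u x y) = y) → Patch S u 0 (N - 1) y y →
    RichU S u 0 (N - 1) y
  rich_B : ∀ (u : ℕ → ℕ → T) (y : ℕ), 0 < y → y < N →
    (∀ x, x < N → P.px (u x y) = x ∧ P.py (u x y) = y) → Patch S u 0 (N - 1) y y →
    RichB S u 0 (N - 1) y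

/-- The tiles of `S` form unique `N × N` blocks (positions `px`, `py`) which are the tiles of `S'`, and
folds cannot occur inside a block. -/
structure Sim (S : Tiles T V H) (S' : Tiles T' V' H') (N : ℕ) where
  N1 : 1 ≤ N
  pos : Pos S N
  rich : Rich S N pos
  /-- expansion of a tile of `S'` into an `N × N` block of `S` -/
  exp : T' → ℕ → ℕ → T
  exp_patch : ∀ t, Patch S (exp t) 0 (N - 1) 0 (N - 1)
  exp_RL : ∀ s t, S'.R s = S'.L t → ∀ y, y < N → S.R (exp s (N - 1) y) = S.L (exp t 0 y)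
  exp_UB : ∀ s t, S'.U s = S'.B t → ∀ x, x < N → S.U (exp s x (N - 1)) = S.B (exp t x 0)
  desub : ∀ u : ℕ → ℕ → T,
    (∀ x y, x < N → y < N → pos.px (u x y) = x ∧ pos.py (u x y) = y) →
    Patch S u 0 (N - 1) 0 (N - 1) → ∃ t, ∀ x y, x < N → y < N → exp t x y = u x y
  mac_RL : ∀ s t, (∀ y, y < N → S.R (exp s (N - 1) y) = S.L (exp t 0 y)) → S'.R s = S'.L t
  mac_RR : ∀ s t, (∀ y, y < N → S.R (exp s (N - 1) y) = S.R (exp t (N - 1) y)) → S'.R s = S'.R t
  mac_LL : ∀ s t, (∀ y, y < N → S.L (exp s 0 y) = S.L (exp t 0 y)) → S'.L s = S'.L t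
  mac_UB : ∀ s t, (∀ x, x < N → S.U (exp s x (N - 1)) = S.B (exp t x 0)) → S'.U s = S'.B t
  mac_UU : ∀ s t, (∀ x, x < N → S.U (exp s x (N - 1)) = S.U (exp t x (N - 1))) → S'.U s = S'.U t
  mac_BB : ∀ s t, (∀ x, x < N → S.B (exp s x 0) = S.B (exp t x 0)) → S'.B s = S'.B t

end Pool.Agent.VHD
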