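import Pool.Agent.VHD.Runs

/-!
# VHD/Descent : a large folded patch of `S` gives a folded patch of the simulated tiles

helper33, for `MP_720b7c_al`.
-/

set_option autoImplicit false

namespace Pool.Agent.VHD

open Pool.Agent.VHG

variable {T V H T' V' H' : Type}

section
variable {S : Tiles T V H} {m n : ℤ} {F : ℤ → ℤ → T} {ex ey : ℤ → Bool}

theorem Folded.runR (h : Folded S m n F ex ey) {X : ℤ → ℕ} {q : ℤ} {e : Bool} {x0 x1 : ℕ}
    (r : Run m ex X q e x0 x1) {j : ℤ} (hj : 0 ≤ j) (hj' : j < n) (x : ℕ) (hx : x0 ≤ x)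
    (hx' : x < x1) :
    S.R (F (q + dir e * x) j) = S.L (F (q + dir e * (x + 1 : ℕ)) j) := by
  have e1 : q + dir e * (x + 1 : ℕ) = q + dir e * x + dir e := by push_cast; ring
  have a := r.in0 (x + 1) (by omega) (by omega)
  have b := r.in1 (x + 1) (by omega) (by omega)
  have c := r.ee (x + 1) (by omega) (by omega)
  rw [e1] at a b c
  rw [e1]
  exact h.nbR (r.ee x hx (by omega)) (r.in0 x hx (by omega)) (r.in1 x hx (by omega)) a b hj hj' c

theorem Folded.patch (h : Folded S m n F ex ey) {X Y : ℤ → ℕ} {q p : ℤ} {e f : Bool}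
    {x0 x1 y0 y1 : ℕ} (r : Run m ex X q e x0 x1) (s : Run n ey Y p f y0 y1) :
    Patch S (fun x y => F (q + dir e * x) (p + dir f * y)) x0 x1 y0 y1 where
  h := fun x y h1 h2 h3 h4 => h.runR r (s.in0 y h3 h4) (s.in1 y h3 h4) x h1 h2
  v := fun x y h1 h2 h3 h4 => h.tr.runR s (r.in0 x h1 h2) (r.in1 x h1 h2) y h3 h4

theorem Folded.noR (h : Folded S m n F ex ey) {X Y : ℤ → ℕ} {q p : ℤ} {e f : Bool}
    {x0 x1 y0 y1 : ℕ} (r : Run m ex X q e x0 x1) (s : Run n ey Y p f y0 y1) (hx : x0 ≤ x1)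
    (hf : 0 ≤ q + dir e * (x1 + 1 : ℕ) ∧ q + dir e * (x1 + 1 : ℕ) < m ∧
        ex (q + dir e * (x1 + 1 : ℕ)) ≠ e)
    (hr : RichR S (fun x y => F (q + dir e * x) (p + dir f * y)) x1 y0 y1) : False := by
  have e1 : q + dir e * (x1 + 1 : ℕ) = q + dir e * x1 + dir e := by push_cast; ring
  rw [e1] at hf
  have key : ∀ y : ℕ, y0 ≤ y → y ≤ y1 →
      S.R (F (q + dir e * x1 + dir e) (p + dir f * y)) = S.R (F (q + dir e * x1) (p + dir f * y)) ∧
      F (q + dir e * x1 + dir e) (p + dir f * y) ≠ F (q + dir e * x1) (p + dir f * y) := by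
    intro y h1 h2
    exact h.fdR (r.ee x1 hx le_rfl) (r.in0 x1 hx le_rfl) (r.in1 x1 hx le_rfl) hf.1 hf.2.1
      (s.in0 y h1 h2) (s.in1 y h1 h2) hf.2.2
  obtain ⟨y, hy0, hy1, he⟩ := hr (fun y => F (q + dir e * x1 + dir e) (p + dir f * y))
    (fun y h1 h2 => (key y h1 h2).1) (fun y h1 h2 => h.tr.runR s hf.1 hf.2.1 y h1 h2)
  exact (key y hy0 hy1).2 he

theorem Folded.noL (h : Folded S m n F ex ey) {X Y : ℤ → ℕ} {q p : ℤ} {e f : Bool}
    {x0 x1 y0 y1 : ℕ} (r : Run m ex X q e x0 x1) (s : Run n ey Y p f y0 y1) (hx : x0 ≤ x1)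
    (h0 : 0 < x0)
    (hf : 0 ≤ q + dir e * (x0 - 1 : ℕ) ∧ q + dir e * (x0 - 1 : ℕ) < m ∧
        ex (q + dir e * (x0 - 1 : ℕ)) ≠ e)
    (hr : RichL S (fun x y => F (q + dir e * x) (p + dir f * y)) x0 y0 y1) : False := by
  have e1 : q + dir e * (x0 - 1 : ℕ) = q + dir e * x0 - dir e := by
    rw [Nat.cast_sub (by omega)]; push_cast; ring
  rw [e1] at hf
  have key : ∀ y : ℕ, y0 ≤ y → y ≤ y1 →
      S.L (F (q + dir e * x0 - dir e) (p + dir f * y)) = S.L (F (q + dir e * x0) (p + dir f * y)) ∧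
      F (q + dir e * x0 - dir e) (p + dir f * y) ≠ F (q + dir e * x0) (p + dir f * y) := by
    intro y h1 h2
    exact h.fdL (r.ee x0 le_rfl hx) (r.in0 x0 le_rfl hx) (r.in1 x0 le_rfl hx) hf.1 hf.2.1
      (s.in0 y h1 h2) (s.in1 y h1 h2) hf.2.2
  obtain ⟨y, hy0, hy1, he⟩ := hr (fun y => F (q + dir e * x0 - dir e) (p + dir f * y))
    (fun y h1 h2 => (key y h1 h2).1) (fun y h1 h2 => h.tr.runR s hf.1 hf.2.1 y h1 h2)
  exact (key y hy0 hy1).2 he

/-- every interior column lies in a full block -/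
theorem Folded.full {N : ℕ} {P : Pos S N} (R : Rich S N P)
    (h : Folded S m n F ex ey) (i j : ℤ) (hi : (N : ℤ) ≤ i) (hi' : i + N < m)
    (hj : (N : ℤ) ≤ j) (hj' : j + N < n) :
    ∃ q e, q + dir e * (P.px (F i 0) : ℕ) = i ∧
      Run m ex (fun i => P.px (F i 0)) q e 0 (N - 1) := by
  have hm : 0 < m := by omega
  have hn : 0 < n := by omega
  obtain ⟨q, e, x0, x1, h1, h2, h3, h4, h5, hr, hfR, hfL⟩ := (h.seq hn P).piece i hi hi'
  obtain ⟨p, f, y0, y1, g1, g2, g3, g4, g5, hs, gfR, gfL⟩ := (h.tr.seq hm P.tr).piece j hj hj'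
  have hx01 : x0 ≤ x1 := h3.trans h4
  have hy01 : y0 ≤ y1 := g3.trans g4
  have hpos : ∀ x y : ℕ, x0 ≤ x → x ≤ x1 → y0 ≤ y → y ≤ y1 →
      P.px ((fun x y : ℕ => F (q + dir e * x) (p + dir f * y)) x y) = x ∧
      P.py ((fun x y : ℕ => F (q + dir e * x) (p + dir f * y)) x y) = y := by
    intro x y a b c d
    have k1 := h.pxcol P (hr.in0 x a b) (hr.in1 x a b) (hs.in0 y c d) (hs.in1 y c d)
    have k2 := h.tr.pxcol P.tr (hs.in0 y c d) (hs.in1 y c d) (hr.in0 x a b) (hr.in1 x a b)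
    exact ⟨k1.trans (hr.xx x a b), k2.trans (hs.xx y c d)⟩
  have hpt := h.patch hr hs
  by_cases hx : x0 = 0 ∧ x1 + 1 = N
  · obtain ⟨hx0, hx1⟩ := hx
    have hx2 : x1 = N - 1 := by omega
    subst hx0 hx2
    exact ⟨q, e, h1, hr⟩
  · exfalso
    by_cases hy : y0 = 0 ∧ y1 + 1 = N
    · obtain ⟨hy0, hy1⟩ := hy
      have hy2 : y1 = N - 1 := by omega
      subst hy0 hy2
      rcases Nat.lt_or_ge (x1 + 1) N with hc | hc
      · refine h.noR hr hs hx01 (hfR hc) (R.rich_R _ x1 hc ?_ ?_)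
        · intro y hy
          exact hpos x1 y hx01 le_rfl (Nat.zero_le _) (by omega)
        · exact ⟨fun x y a b => by omega, fun x y a b c d => hpt.v x y (by omega) (by omega) c d⟩
      · have h0 : 0 < x0 := by
          rcases Nat.eq_zero_or_pos x0 with h0 | h0
          · exact absurd ⟨h0, by omega⟩ hx
          · exact h0
        refine h.noL hr hs hx01 h0 (hfL h0) (R.rich_L _ x0 h0 (by omega) ?_ ?_)
        · intro y hy
          exact hpos x0 y le_rfl hx01 (Nat.zero_le _) (by omega)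
        · exact ⟨fun x y a b => by omega, fun x y a b c d => hpt.v x y (by omega) (by omega) c d⟩
    · rcases R.rich_box _ x0 x1 y0 y1 hx01 h5 hy01 g5 hx hy hpos hpt with hc | hc | hc | hc
      · exact h.noR hr hs hx01 (hfR hc.1) hc.2
      · exact h.noL hr hs hx01 hc.1 (hfL hc.1) hc.2
      · exact h.tr.noR hs hr hy01 (gfR hc.1) hc.2
      · exact h.tr.noL hs hr hy01 hc.1 (gfL hc.1) hc.2

/-- every interior column lies in a block -/
theorem Folded.blk {N : ℕ} (hN : 1 ≤ N) {P : Pos S N} (R : Rich S N P)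
    (h : Folded S m n F ex ey) (hn : 2 * (N : ℤ) < n) (i : ℤ) (hi : (N : ℤ) ≤ i) (hi' : i + N < m) :
    ∃ c e, Blk N m ex (fun i => P.px (F i 0)) c e ∧ c ≤ i ∧ i < c + N := by
  obtain ⟨q, e, h1, hr⟩ := h.full R i N hi hi' le_rfl (by linarith)
  have hlt := P.px_lt (F i 0)
  cases e with
  | true =>
    refine ⟨q, true, ?_, ?_, ?_⟩
    · exact hr
    · simp only [dir_true] at h1; omega
    · simp only [dir_true] at h1; omega
  | false =>
    refine ⟨q - (N - 1), false, ?_, ?_, ?_⟩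
    · have : qof N (q - (N - 1)) false = q := by
        simp only [qof, Bool.false_eq_true, if_false]; ring
      unfold Blk
      rw [this]
      exact hr
    · simp only [dir_false] at h1; omega
    · simp only [dir_false] at h1; omega

end

/-- horizontal adjacency of macro tiles -/
theorem macH {S : Tiles T V H} {S' : Tiles T' V' H'} {N : ℕ} (M : Sim S S' N) {m n : ℤ}
    {F : ℤ → ℤ → T} {ex ey : ℤ → Bool} (h : Folded S m n F ex ey) {X : ℤ → ℕ} {c : ℤ}
    (hb : Blk N m ex X c (ex c)) (hb' : Blk N m ex X (c + N) (ex (c + N))) {t t' : T'}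
    (row : ℕ → ℤ) (hrow : ∀ y, y < N → 0 ≤ row y ∧ row y < n)
    (ht : ∀ x y : ℕ, x < N → y < N →
      M.exp t x y = F (qof N c (ex c) + dir (ex c) * x) (row y))
    (ht' : ∀ x y : ℕ, x < N → y < N →
      M.exp t' x y = F (qof N (c + N) (ex (c + N)) + dir (ex (c + N)) * x) (row y)) :
    S'.rt (ex c) t = S'.lt (ex (c + N)) t' ∧ (ex c ≠ ex (c + N) → t ≠ t') := by
  have hN := M.N1
  have m1 := hb.mem hN (i := c + N - 1) (by omega) (by omega)
  have m2 := hb'.mem hN (i := c + N) (by omega) (by omega)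
  have e1 : c + N - 1 + 1 = c + (N : ℤ) := by ring
  -- the tiles on both sides of the seam
  have hl : ∀ y, y < N → F (c + N - 1) (row y) = M.exp t (if ex c then N - 1 else 0) y := by
    intro y hy
    cases hc : ex c with
    | true =>
      have := ht (N - 1) y (by omega) hy
      rw [hc] at this
      simp only [if_true, this, qof, dir_true]
      congr 1
      rw [Nat.cast_sub hN]; push_cast; ring
    | false =>
      have := ht 0 y (by omega) hy
      rw [hc] at this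
      simp only [Bool.false_eq_true, if_false, this, qof, dir_false]
      congr 1
      push_cast; ring
  have hr : ∀ y, y < N → F (c + N) (row y) = M.exp t' (if ex (c + N) then 0 else N - 1) y := by
    intro y hy
    cases hc : ex (c + N) with
    | true =>
      have := ht' 0 y (by omega) hy
      rw [hc] at this
      simp only [if_true, this, qof, dir_true]
      congr 1
      push_cast; ring
    | false =>
      have := ht' (N - 1) y (by omega) hy
      rw [hc] at this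
      simp only [Bool.false_eq_true, if_false, this, qof, dir_false]
      congr 1
      rw [Nat.cast_sub hN]; push_cast; ring
  have hh : ∀ y, y < N → S.rt (ex c) (M.exp t (if ex c then N - 1 else 0) y) =
      S.lt (ex (c + N)) (M.exp t' (if ex (c + N) then 0 else N - 1) y) := by
    intro y hy
    have := h.h (c + N - 1) (row y) m1.1 (by rw [e1]; exact m2.2.1) (hrow y hy).1 (hrow y hy).2
    rw [e1, m1.2.2.1, hl y hy, hr y hy] at this
    exact this
  have hne : ex c ≠ ex (c + N) → M.exp t (if ex c then N - 1 else 0) 0 ≠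
      M.exp t' (if ex (c + N) then 0 else N - 1) 0 := by
    intro hc
    have := h.hf (c + N - 1) (row 0) m1.1 (by rw [e1]; exact m2.2.1) (hrow 0 (by omega)).1
      (hrow 0 (by omega)).2 (by rw [e1, m1.2.2.1]; exact hc)
    rw [e1, hl 0 (by omega), hr 0 (by omega)] at this
    exact this
  constructor
  · cases h1 : ex c <;> cases h2 : ex (c + N) <;>
      simp only [h1, h2, Tiles.rt, Tiles.lt, if_true, Bool.false_eq_true, if_false] at hh ⊢
    · exact (M.mac_RL t' t (fun y hy => (hh y hy).symm)).symm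
    · exact M.mac_LL t t' hh
    · exact M.mac_RR t t' hh
    · exact M.mac_RL t t' hh
  · intro hc he
    apply hne hc
    subst he
    have hc' := bne hc
    rw [hc']
    cases ex (c + N) <;> simp

/-- **Descent.** A folded patch of `S` of size at least `N (m' + 2) × N (n' + 2)` contains a folded
patch of the simulated tile set `S'` of size `m' × n'`. -/
theorem descent {S : Tiles T V H} {S' : Tiles T' V' H'} {N : ℕ} (M : Sim S S' N) {m n : ℤ}
    {F : ℤ → ℤ → T} {ex ey : ℤ → Bool} (h : Folded S m n F ex ey) (m' n' : ℕ) (hm' : 1 ≤ m')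
    (hn' : 1 ≤ n') (hm : (N : ℤ) * (m' + 2) ≤ m) (hn : (N : ℤ) * (n' + 2) ≤ n) :
    ∃ (F' : ℤ → ℤ → T') (ex' ey' : ℤ → Bool), Folded S' m' n' F' ex' ey' := by
  classical
  have hN := M.N1
  have hN' : (1 : ℤ) ≤ N := by exact_mod_cast hN
  have hm1 : (1 : ℤ) ≤ m' := by exact_mod_cast hm'
  have hn1 : (1 : ℤ) ≤ n' := by exact_mod_cast hn'
  have hm2 : 2 * (N : ℤ) < m := by nlinarith
  have hn2 : 2 * (N : ℤ) < n := by nlinarith
  obtain ⟨c0, hc⟩ := blocks hN (fun i hi hi' => h.blk hN M.rich hn2 i hi hi') m' hm' hm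
  obtain ⟨r0, hr⟩ := blocks hN (fun i hi hi' => h.tr.blk hN M.rich.tr hm2 i hi hi') n' hn' hn
  have hc' : ∀ a : ℤ, 0 ≤ a → a < m' →
      Blk N m ex (fun i => M.pos.px (F i 0)) (c0 + a * N) (ex (c0 + a * N)) := by
    intro a h1 h2
    obtain ⟨k, rfl⟩ := Int.eq_ofNat_of_zero_le h1
    exact hc k (by exact_mod_cast h2)
  have hr' : ∀ b : ℤ, 0 ≤ b → b < n' →
      Blk N n ey (fun j => M.pos.py (F 0 j)) (r0 + b * N) (ey (r0 + b * N)) := by
    intro a h1 h2
    obtain ⟨k, rfl⟩ := Int.eq_ofNat_of_zero_le h1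
    exact hr k (by exact_mod_cast h2)
  have hex : ∀ a b : ℤ, 0 ≤ a → a < m' → 0 ≤ b → b < n' → ∃ t : T', ∀ x y : ℕ, x < N → y < N →
      M.exp t x y = F (qof N (c0 + a * N) (ex (c0 + a * N)) + dir (ex (c0 + a * N)) * x)
        (qof N (r0 + b * N) (ey (r0 + b * N)) + dir (ey (r0 + b * N)) * y) := by
    intro a b h1 h2 h3 h4
    have ra := hc' a h1 h2
    have rb := hr' b h3 h4
    refine M.desub (fun x y => F (qof N (c0 + a * N) (ex (c0 + a * N)) + dir (ex (c0 + a * N)) * x)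
        (qof N (r0 + b * N) (ey (r0 + b * N)) + dir (ey (r0 + b * N)) * y)) ?_ (h.patch ra rb)
    intro x y hx hy
    have a1 := ra.in0 x (Nat.zero_le _) (by omega)
    have a2 := ra.in1 x (Nat.zero_le _) (by omega)
    have a3 := ra.xx x (Nat.zero_le _) (by omega)
    have b1 := rb.in0 y (Nat.zero_le _) (by omega)
    have b2 := rb.in1 y (Nat.zero_le _) (by omega)
    have b3 := rb.xx y (Nat.zero_le _) (by omega)
    exact ⟨(h.pxcol M.pos a1 a2 b1 b2).trans a3, (h.tr.pxcol M.pos.tr b1 b2 a1 a2).trans b3⟩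
  obtain ⟨t0, -⟩ := hex 0 0 le_rfl (by linarith) le_rfl (by linarith)
  have hex2 : ∀ a b : ℤ, ∃ t : T', 0 ≤ a → a < m' → 0 ≤ b → b < n' → ∀ x y : ℕ, x < N → y < N →
      M.exp t x y = F (qof N (c0 + a * N) (ex (c0 + a * N)) + dir (ex (c0 + a * N)) * x)
        (qof N (r0 + b * N) (ey (r0 + b * N)) + dir (ey (r0 + b * N)) * y) := by
    intro a b
    by_cases hh : 0 ≤ a ∧ a < m' ∧ 0 ≤ b ∧ b < n'
    · obtain ⟨t, ht⟩ := hex a b hh.1 hh.2.1 hh.2.2.1 hh.2.2.2
      exact ⟨t, fun _ _ _ _ => ht⟩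
    · exact ⟨t0, fun h1 h2 h3 h4 => absurd ⟨h1, h2, h3, h4⟩ hh⟩
  choose F' hF' using hex2
  have hH : ∀ a b : ℤ, 0 ≤ a → a + 1 < m' → 0 ≤ b → b < n' →
      S'.rt (ex (c0 + a * N)) (F' a b) = S'.lt (ex (c0 + (a + 1) * N)) (F' (a + 1) b) ∧
      (ex (c0 + a * N) ≠ ex (c0 + (a + 1) * N) → F' a b ≠ F' (a + 1) b) := by
    intro a b h1 h2 h3 h4
    have e1 : c0 + (a + 1) * N = c0 + a * N + N := by ring
    have rb := hr' b h3 h4
    have ra := hc' a h1 (by linarith)
    have ra' := hc' (a + 1) (by linarith) h2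
    have k1 := hF' a b h1 (by linarith) h3 h4
    have k2 := hF' (a + 1) b (by linarith) h2 h3 h4
    rw [e1] at ra' k2 ⊢
    exact macH M h ra ra' _ (fun y hy => ⟨rb.in0 y (Nat.zero_le _) (by omega),
      rb.in1 y (Nat.zero_le _) (by omega)⟩) k1 k2
  have hV : ∀ a b : ℤ, 0 ≤ a → a < m' → 0 ≤ b → b + 1 < n' →
      S'.up (ey (r0 + b * N)) (F' a b) = S'.dn (ey (r0 + (b + 1) * N)) (F' a (b + 1)) ∧
      (ey (r0 + b * N) ≠ ey (r0 + (b + 1) * N) → F' a b ≠ F' a (b + 1)) := by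
    intro a b h1 h2 h3 h4
    have e1 : r0 + (b + 1) * N = r0 + b * N + N := by ring
    have ra := hc' a h1 h2
    have rb := hr' b h3 (by linarith)
    have rb' := hr' (b + 1) (by linarith) h4
    have k1 := hF' a b h1 h2 h3 (by linarith)
    have k2 := hF' a (b + 1) h1 h2 (by linarith) h4
    rw [e1] at rb' k2 ⊢
    exact macH M.tr h.tr rb rb' _ (fun y hy => ⟨ra.in0 y (Nat.zero_le _) (by omega),
      ra.in1 y (Nat.zero_le _) (by omega)⟩) (fun x y hx hy => k1 y x hy hx)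
      (fun x y hx hy => k2 y x hy hx)
  exact ⟨F', fun a => ex (c0 + a * N), fun b => ey (r0 + b * N),
    ⟨fun a b h1 h2 h3 h4 => (hH a b h1 h2 h3 h4).1, fun a b h1 h2 h3 h4 => (hV a b h1 h2 h3 h4).1,
      fun a b h1 h2 h3 h4 => (hH a b h1 h2 h3 h4).2, fun a b h1 h2 h3 h4 => (hV a b h1 h2 h3 h4).2⟩⟩

/-- no folded patches of the simulated tiles, then none (of a larger size) of the simulating tiles -/
theorem NoFolded.up {S : Tiles T V H} {S' : Tiles T' V' H'} {N : ℕ} (M : Sim S S' N) (m' : ℕ)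
    (hm' : 1 ≤ m') (h : NoFolded S' m') : NoFolded S ((N * (m' + 2) : ℕ) : ℤ) := by
  intro F ex ey hF
  obtain ⟨F', ex', ey', hF'⟩ := descent M hF m' m' hm' hm' (by push_cast; exact le_rfl)
    (by push_cast; exact le_rfl)
  exact h F' ex' ey' hF'

/-- restriction -/
theorem Folded.mono {S : Tiles T V H} {m n m1 n1 : ℤ} {F : ℤ → ℤ → T} {ex ey : ℤ → Bool}
    (h : Folded S m n F ex ey) (h1 : m1 ≤ m) (h2 : n1 ≤ n) : Folded S m1 n1 F ex ey where
  h := fun i j a b c d => h.h i j a (by omega) c (by omega)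
  v := fun i j a b c d => h.v i j a (by omega) c (by omega)
  hf := fun i j a b c d => h.hf i j a (by omega) c (by omega)
  vf := fun i j a b c d => h.vf i j a (by omega) c (by omega)

theorem NoFolded.mono {S : Tiles T V H} {m m1 : ℤ} (h : NoFolded S m) (h1 : m ≤ m1) :
    NoFolded S m1 := fun F ex ey hF => h F ex ey (hF.mono h1 h1)

/-- **Ascent.** patches of the simulated tiles expand -/
theorem HasPatch.up {S : Tiles T V H} {S' : Tiles T' V' H'} {N : ℕ} (M : Sim S S' N) {n : ℕ}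
    (h : HasPatch S' n) : HasPatch S (N * n) := by
  obtain ⟨F, hF1, hF2⟩ := h
  have hN := M.N1
  have key : ∀ i, i + 1 < N * n → (i % N + 1 < N ∧ (i + 1) % N = i % N + 1 ∧ (i + 1) / N = i / N) ∨
      (i % N = N - 1 ∧ (i + 1) % N = 0 ∧ (i + 1) / N = i / N + 1 ∧ i / N + 1 < n) := by
    intro i hi
    have h1 := Nat.div_add_mod i N
    have h2 := Nat.mod_lt i (show 0 < N by omega)
    rcases Nat.lt_or_ge (i % N + 1) N with h3 | h3
    · left
      refine ⟨h3, ?_, ?_⟩
      · rw [Nat.add_mod, Nat.mod_eq_of_lt (show i % N + 1 % N < N by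
          rcases Nat.lt_or_ge 1 N with h4 | h4
          · rw [Nat.mod_eq_of_lt h4]; exact h3
          · have : N = 1 := by omega
            omega)]
        rw [Nat.mod_eq_of_lt (show 1 < N by omega)]
      · rw [show i + 1 = (i % N + 1) + N * (i / N) by omega, Nat.add_mul_div_left _ _ (by omega),
          Nat.div_eq_of_lt h3]
        omega
    · right
      have h4 : i % N = N - 1 := by omega
      have h5 : i + 1 = N * (i / N + 1) := by
        rw [Nat.mul_add, Nat.mul_one]; omega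
      refine ⟨h4, ?_, ?_, ?_⟩
      · rw [h5]; exact Nat.mul_mod_right _ _
      · rw [h5, Nat.mul_div_cancel_left _ (by omega)]
      · rw [h5] at hi
        exact Nat.lt_of_mul_lt_mul_left hi
  have hdiv : ∀ j, j < N * n → j / N < n := fun j hj => Nat.div_lt_of_lt_mul hj
  refine ⟨fun x y => M.exp (F (x / N) (y / N)) (x % N) (y % N), ?_, ?_⟩
  · intro i j hi hj
    have hj2 := Nat.mod_lt j (show 0 < N by omega)
    rcases key i hi with ⟨a, b, c⟩ | ⟨a, b, c, d⟩
    · simp only [b, c]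
      exact (M.exp_patch _).h _ _ (Nat.zero_le _) (by omega) (Nat.zero_le _) (by omega)
    · simp only [a, b, c]
      exact M.exp_RL _ _ (hF1 _ _ d (hdiv j hj)) _ hj2
  · intro i j hi hj
    have hi2 := Nat.mod_lt i (show 0 < N by omega)
    rcases key j hj with ⟨a, b, c⟩ | ⟨a, b, c, d⟩
    · simp only [b, c]
      exact (M.exp_patch _).v _ _ (Nat.zero_le _) (by omega) (Nat.zero_le _) (by omega)
    · simp only [a, b, c]
      exact M.exp_UB _ _ (hF2 _ _ (hdiv i hi) d) _ hi2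

end Pool.Agent.VHD
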