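import Pool.Agent.VHD.Defs

/-!
# VHD/Runs : transposition, and maximal runs of columns

Combinatorics of one coordinate of a folded patch (helper33, for `MP_720b7c_al`).
-/

set_option autoImplicit false

namespace Pool.Agent.VHD

open Pool.Agent.VHG

variable {T V H T' V' H' : Type}

theorem Folded.tr {S : Tiles T V H} {m n : ℤ} {F : ℤ → ℤ → T} {ex ey : ℤ → Bool}
    (h : Folded S m n F ex ey) : Folded S.tr n m (fun a b => F b a) ey ex where
  h := fun i j h1 h2 h3 h4 => h.v j i h3 h4 h1 h2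
  v := fun i j h1 h2 h3 h4 => h.h j i h3 h4 h1 h2
  hf := fun i j h1 h2 h3 h4 => h.vf j i h3 h4 h1 h2
  vf := fun i j h1 h2 h3 h4 => h.hf j i h3 h4 h1 h2

theorem Patch.tr {S : Tiles T V H} {u : ℕ → ℕ → T} {x0 x1 y0 y1 : ℕ}
    (h : Patch S u x0 x1 y0 y1) : Patch S.tr (fun a b => u b a) y0 y1 x0 x1 where
  h := fun x y h1 h2 h3 h4 => h.v y x h3 h4 h1 h2
  v := fun x y h1 h2 h3 h4 => h.h y x h3 h4 h1 h2

/-- transposed positions -/
def Pos.tr {S : Tiles T V H} {N : ℕ} (P : Pos S N) : Pos S.tr N where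
  px := P.py
  py := P.px
  px_lt := P.py_lt
  py_lt := P.px_lt
  RL := fun s t h => ⟨(P.UB s t h).2, (P.UB s t h).1⟩
  UB := fun s t h => ⟨(P.RL s t h).2, (P.RL s t h).1⟩
  RR := fun s t h => ⟨(P.UU s t h).2, (P.UU s t h).1⟩
  LL := fun s t h => ⟨(P.BB s t h).2, (P.BB s t h).1⟩
  UU := fun s t h => ⟨(P.RR s t h).2, (P.RR s t h).1⟩
  BB := fun s t h => ⟨(P.LL s t h).2, (P.LL s t h).1⟩

theorem Rich.tr {S : Tiles T V H} {N : ℕ} {P : Pos S N} (R : Rich S N P) : Rich S.tr N P.tr where
  rich_box := by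
    intro u x0 x1 y0 y1 h1 h2 h3 h4 h5 h6 hp hu
    have := R.rich_box (fun a b => u b a) y0 y1 x0 x1 h3 h4 h1 h2 h6 h5
      (fun x y a b c d => ⟨(hp y x c d a b).2, (hp y x c d a b).1⟩) hu.tr
    rcases this with h | h | h | h
    · exact Or.inr (Or.inr (Or.inl h))
    · exact Or.inr (Or.inr (Or.inr h))
    · exact Or.inl h
    · exact Or.inr (Or.inl h)
  rich_R := by
    intro u x h1 hp hu
    exact R.rich_U (fun a b => u b a) x h1 (fun y hy => ⟨(hp y hy).2, (hp y hy).1⟩) hu.tr
  rich_L := by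
    intro u x h0 h1 hp hu
    exact R.rich_B (fun a b => u b a) x h0 h1 (fun y hy => ⟨(hp y hy).2, (hp y hy).1⟩) hu.tr
  rich_U := by
    intro u y h1 hp hu
    exact R.rich_R (fun a b => u b a) y h1 (fun x hx => ⟨(hp x hx).2, (hp x hx).1⟩) hu.tr
  rich_B := by
    intro u y h0 h1 hp hu
    exact R.rich_L (fun a b => u b a) y h0 h1 (fun x hx => ⟨(hp x hx).2, (hp x hx).1⟩) hu.tr

/-- transposed simulation -/
def Sim.tr {S : Tiles T V H} {S' : Tiles T' V' H'} {N : ℕ} (M : Sim S S' N) :
    Sim S.tr S'.tr N where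
  N1 := M.N1
  pos := M.pos.tr
  rich := M.rich.tr
  exp := fun t x y => M.exp t y x
  exp_patch := fun t => (M.exp_patch t).tr
  exp_RL := fun s t h y hy => M.exp_UB s t h y hy
  exp_UB := fun s t h x hx => M.exp_RL s t h x hx
  desub := by
    intro u hp hu
    obtain ⟨t, ht⟩ := M.desub (fun a b => u b a)
      (fun x y hx hy => ⟨(hp y x hy hx).2, (hp y x hy hx).1⟩) hu.tr
    exact ⟨t, fun x y hx hy => ht y x hy hx⟩
  mac_RL := fun s t h => M.mac_UB s t h
  mac_RR := fun s t h => M.mac_UU s t h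
  mac_LL := fun s t h => M.mac_BB s t h
  mac_UB := fun s t h => M.mac_RL s t h
  mac_UU := fun s t h => M.mac_RR s t h
  mac_BB := fun s t h => M.mac_LL s t h

/-- the direction of an orientation -/
def dir (e : Bool) : ℤ := if e then 1 else -1

@[simp] theorem dir_true : dir true = 1 := rfl
@[simp] theorem dir_false : dir false = -1 := rfl

theorem bne {a b : Bool} (h : a ≠ b) : a = !b := by
  cases a <;> cases b <;> simp_all

/-- the tile on the `R` side, same orientation -/
theorem Folded.nbR {S : Tiles T V H} {m n : ℤ} {F : ℤ → ℤ → T} {ex ey : ℤ → Bool}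
    (h : Folded S m n F ex ey) {i j : ℤ} {e : Bool} (he : ex i = e)
    (hi : 0 ≤ i) (hi' : i < m) (hd : 0 ≤ i + dir e) (hd' : i + dir e < m)
    (hj : 0 ≤ j) (hj' : j < n) (hs : ex (i + dir e) = e) :
    S.R (F i j) = S.L (F (i + dir e) j) := by
  cases e with
  | true =>
    have := h.h i j hi hd' hj hj'
    simp only [dir_true] at hs
    rw [he, hs] at this
    exact this
  | false =>
    simp only [dir_false] at hs hd hd'
    have h0 : i + -1 + 1 = i := by ring
    have := h.h (i + -1) j hd (by rw [h0]; exact hi') hj hj'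
    rw [h0, he, hs] at this
    exact this.symm

/-- the tile on the `R` side of a fold -/
theorem Folded.fdR {S : Tiles T V H} {m n : ℤ} {F : ℤ → ℤ → T} {ex ey : ℤ → Bool}
    (h : Folded S m n F ex ey) {i j : ℤ} {e : Bool} (he : ex i = e)
    (hi : 0 ≤ i) (hi' : i < m) (hd : 0 ≤ i + dir e) (hd' : i + dir e < m)
    (hj : 0 ≤ j) (hj' : j < n) (hs : ex (i + dir e) ≠ e) :
    S.R (F (i + dir e) j) = S.R (F i j) ∧ F (i + dir e) j ≠ F i j := by
  cases e with
  | true =>
    simp only [dir_true] at hs hd hd'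
    have := h.h i j hi hd' hj hj'
    have h2 := h.hf i j hi hd' hj hj' (by rw [he]; exact hs.symm)
    have hs' := bne hs
    rw [he, hs'] at this
    exact ⟨this.symm, h2.symm⟩
  | false =>
    simp only [dir_false] at hs hd hd'
    have h0 : i + -1 + 1 = i := by ring
    have := h.h (i + -1) j hd (by rw [h0]; exact hi') hj hj'
    have h2 := h.hf (i + -1) j hd (by rw [h0]; exact hi') hj hj' (by rw [h0, he]; exact hs)
    have hs' := bne hs
    rw [h0, he, hs'] at this
    rw [h0] at h2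
    exact ⟨this, h2⟩

/-- the tile on the `L` side of a fold -/
theorem Folded.fdL {S : Tiles T V H} {m n : ℤ} {F : ℤ → ℤ → T} {ex ey : ℤ → Bool}
    (h : Folded S m n F ex ey) {i j : ℤ} {e : Bool} (he : ex i = e)
    (hi : 0 ≤ i) (hi' : i < m) (hd : 0 ≤ i - dir e) (hd' : i - dir e < m)
    (hj : 0 ≤ j) (hj' : j < n) (hs : ex (i - dir e) ≠ e) :
    S.L (F (i - dir e) j) = S.L (F i j) ∧ F (i - dir e) j ≠ F i j := by
  cases e with
  | true =>
    simp only [dir_true] at hs hd hd'
    have h0 : i - 1 + 1 = i := by ring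
    have := h.h (i - 1) j hd (by rw [h0]; exact hi') hj hj'
    have h2 := h.hf (i - 1) j hd (by rw [h0]; exact hi') hj hj' (by rw [h0, he]; exact hs)
    have hs' := bne hs
    rw [h0, he, hs'] at this
    rw [h0] at h2
    exact ⟨this, h2⟩
  | false =>
    simp only [dir_false] at hs hd hd'
    have h0 : i - -1 = i + 1 := by ring
    rw [h0] at hs hd hd'
    have := h.h i j hi hd' hj hj'
    have h2 := h.hf i j hi hd' hj hj' (by rw [he]; exact hs.symm)
    have hs' := bne hs
    rw [he, hs'] at this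
    rw [dir_false, h0]
    exact ⟨this.symm, h2.symm⟩

/-- the positions are constant along columns -/
theorem Folded.pxcol {S : Tiles T V H} {m n : ℤ} {F : ℤ → ℤ → T} {ex ey : ℤ → Bool}
    (h : Folded S m n F ex ey) {N : ℕ} (P : Pos S N) {i j : ℤ} (hi : 0 ≤ i) (hi' : i < m)
    (hj : 0 ≤ j) (hj' : j < n) : P.px (F i j) = P.px (F i 0) := by
  obtain ⟨k, rfl⟩ := Int.eq_ofNat_of_zero_le hj
  induction k with
  | zero => rfl
  | succ k ih =>
    have ih' := ih (by positivity) (by push_cast at hj'; omega)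
    have hv := h.v i k hi hi' (by positivity) (by push_cast at hj'; omega)
    rw [← ih']
    have e1 : ((k + 1 : ℕ) : ℤ) = (k : ℤ) + 1 := by push_cast; ring
    rw [e1]
    cases h1 : ey (k : ℤ) <;> cases h2 : ey ((k : ℤ) + 1) <;>
      simp only [h1, h2, Tiles.up, Tiles.dn, if_true, Bool.false_eq_true, if_false] at hv
    · exact ((P.UB _ _ hv.symm).1).symm
    · exact ((P.BB _ _ hv).1).symm
    · exact ((P.UU _ _ hv).1).symm
    · exact (P.UB _ _ hv).1

/-- rules for one coordinate -/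
structure Seq (N : ℕ) (m : ℤ) (ex : ℤ → Bool) (X : ℤ → ℕ) : Prop where
  lt : ∀ i, X i < N
  step : ∀ i e, 0 ≤ i → i < m → 0 ≤ i + dir e → i + dir e < m → ex i = e → ex (i + dir e) = e →
    X (i + dir e) = (X i + 1) % N

theorem Folded.seq {S : Tiles T V H} {m n : ℤ} {F : ℤ → ℤ → T} {ex ey : ℤ → Bool}
    (h : Folded S m n F ex ey) (hn : 0 < n) {N : ℕ} (P : Pos S N) :
    Seq N m ex (fun i => P.px (F i 0)) where
  lt := fun i => P.px_lt _
  step := by
    intro i e h1 h2 h3 h4 h5 h6
    exact (P.RL _ _ (h.nbR h5 h1 h2 h3 h4 le_rfl hn h6)).1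

/-- a run of columns with consecutive positions -/
structure Run (m : ℤ) (ex : ℤ → Bool) (X : ℤ → ℕ) (q : ℤ) (e : Bool) (x0 x1 : ℕ) : Prop where
  in0 : ∀ k : ℕ, x0 ≤ k → k ≤ x1 → 0 ≤ q + dir e * k
  in1 : ∀ k : ℕ, x0 ≤ k → k ≤ x1 → q + dir e * k < m
  ee : ∀ k : ℕ, x0 ≤ k → k ≤ x1 → ex (q + dir e * k) = e
  xx : ∀ k : ℕ, x0 ≤ k → k ≤ x1 → X (q + dir e * k) = k

theorem dir_mul_le (e : Bool) (a b : ℤ) (h : |a| ≤ b) : -b ≤ dir e * a ∧ dir e * a ≤ b := by
  have := abs_le.1 h
  cases e
  · simp only [dir_false]; constructor <;> linarith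
  · simp only [dir_true]; constructor <;> linarith

/-- maximal runs -/
theorem Seq.piece {N : ℕ} {m : ℤ} {ex : ℤ → Bool} {X : ℤ → ℕ} (hS : Seq N m ex X)
    (i : ℤ) (hi : (N : ℤ) ≤ i) (hi' : i + N < m) :
    ∃ (q : ℤ) (e : Bool) (x0 x1 : ℕ), q + dir e * X i = i ∧ ex i = e ∧ x0 ≤ X i ∧ X i ≤ x1 ∧ x1 < N ∧
      Run m ex X q e x0 x1 ∧
      (x1 + 1 < N → 0 ≤ q + dir e * (x1 + 1 : ℕ) ∧ q + dir e * (x1 + 1 : ℕ) < m ∧
        ex (q + dir e * (x1 + 1 : ℕ)) ≠ e) ∧
      (0 < x0 → 0 ≤ q + dir e * (x0 - 1 : ℕ) ∧ q + dir e * (x0 - 1 : ℕ) < m ∧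
        ex (q + dir e * (x0 - 1 : ℕ)) ≠ e) := by
  classical
  have hX := hS.lt i
  set e := ex i with he
  set q := i - dir e * X i with hq
  have hqi : q + dir e * X i = i := by rw [hq]; ring
  -- range
  have hr : ∀ k : ℕ, k ≤ N → 0 ≤ q + dir e * k ∧ q + dir e * k < m := by
    intro k hk
    have h1 := dir_mul_le e ((k : ℤ) - X i) N (by
      rw [abs_le]; constructor <;> omega)
    have h2 : q + dir e * k = i + dir e * ((k : ℤ) - X i) := by rw [hq]; ring
    rw [h2]
    constructor <;> linarith [h1.1, h1.2]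
  have hstep : ∀ k : ℕ, q + dir e * (k + 1 : ℕ) = q + dir e * k + dir e := by
    intro k; push_cast; ring
  -- upper end
  obtain ⟨x1, hx1a, hx1b, hx1c, hx1d⟩ : ∃ x1, X i ≤ x1 ∧ x1 < N ∧
      (∀ k, X i ≤ k → k < x1 → ex (q + dir e * (k + 1 : ℕ)) = e) ∧
      (x1 + 1 < N → ex (q + dir e * (x1 + 1 : ℕ)) ≠ e) := by
    by_cases hE : ∃ k, X i ≤ k ∧ k + 1 < N ∧ ex (q + dir e * (k + 1 : ℕ)) ≠ e
    · refine ⟨Nat.find hE, (Nat.find_spec hE).1, ?_, ?_, fun _ => (Nat.find_spec hE).2.2⟩
      · have := (Nat.find_spec hE).2.1; omega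
      · intro k hk hk2
        have := Nat.find_min hE hk2
        by_contra hcon
        exact this ⟨hk, by have := (Nat.find_spec hE).2.1; omega, hcon⟩
    · refine ⟨N - 1, by omega, by omega, ?_, fun h => by omega⟩
      intro k hk hk2
      by_contra hcon
      exact hE ⟨k, hk, by omega, hcon⟩
  -- lower end
  obtain ⟨x0, hx0a, hx0c, hx0d⟩ : ∃ x0, x0 ≤ X i ∧
      (∀ k, x0 ≤ k → k < X i → ex (q + dir e * k) = e) ∧
      (0 < x0 → ex (q + dir e * (x0 - 1 : ℕ)) ≠ e) := by
    -- look for the least `r` with a fold below `X i - r`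
    by_cases hE : ∃ r, r < X i ∧ ex (q + dir e * (X i - r - 1 : ℕ)) ≠ e
    · refine ⟨X i - Nat.find hE, by omega, ?_, ?_⟩
      · intro k hk hk2
        have := Nat.find_min hE (m := X i - 1 - k) (by omega)
        by_contra hcon
        apply this
        refine ⟨by omega, ?_⟩
        have : X i - (X i - 1 - k) - 1 = k := by omega
        rw [this]; exact hcon
      · intro _
        exact (Nat.find_spec hE).2
    · refine ⟨0, by omega, ?_, fun h => by omega⟩
      intro k _ hk2
      by_contra hcon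
      apply hE
      refine ⟨X i - 1 - k, by omega, ?_⟩
      have : X i - (X i - 1 - k) - 1 = k := by omega
      rw [this]; exact hcon
  have heU : ∀ k, X i ≤ k → k ≤ x1 → ex (q + dir e * k) = e := by
    intro k hk hk2
    rcases Nat.eq_or_lt_of_le hk with h | h
    · rw [← h, hqi]
    · have := hx1c (k - 1) (by omega) (by omega)
      have h2 : k - 1 + 1 = k := by omega
      rwa [h2] at this
  have heA : ∀ k, x0 ≤ k → k ≤ x1 → ex (q + dir e * k) = e := by
    intro k hk hk2
    rcases Nat.lt_or_ge k (X i) with h | h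
    · exact hx0c k hk h
    · exact heU k h hk2
  have hxU : ∀ k, X i ≤ k → k ≤ x1 → X (q + dir e * k) = k := by
    intro k hk
    induction k, hk using Nat.le_induction with
    | base => intro _; rw [hqi]
    | succ k hk ih =>
      intro hk2
      have ih' := ih (by omega)
      have := hS.step (q + dir e * k) e (hr k (by omega)).1 (hr k (by omega)).2
        (by rw [← hstep]; exact (hr (k + 1) (by omega)).1)
        (by rw [← hstep]; exact (hr (k + 1) (by omega)).2)
        (heU k hk (by omega)) (by rw [← hstep]; exact heU (k + 1) (by omega) hk2)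
      rw [← hstep, ih', Nat.mod_eq_of_lt (by omega)] at this
      exact this
  have hxD : ∀ r, r ≤ X i → x0 ≤ X i - r → X (q + dir e * (X i - r : ℕ)) = X i - r := by
    intro r
    induction r with
    | zero =>
      intro _ _
      rw [Nat.sub_zero, hqi]
    | succ r ih =>
      intro h1 h2
      have ih' := ih (by omega) (by omega)
      have hk : X i - r = (X i - (r + 1)) + 1 := by omega
      have := hS.step (q + dir e * (X i - (r + 1) : ℕ)) e (hr _ (by omega)).1 (hr _ (by omega)).2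
        (by rw [← hstep]; exact (hr _ (by omega)).1)
        (by rw [← hstep]; exact (hr _ (by omega)).2)
        (heA _ h2 (by omega)) (by rw [← hstep]; exact heA _ (by omega) (by omega))
      rw [← hstep, ← hk, ih'] at this
      have hl := hS.lt (q + dir e * (X i - (r + 1) : ℕ))
      rcases Nat.lt_or_ge (X (q + dir e * (X i - (r + 1) : ℕ)) + 1) N with h3 | h3
      · rw [Nat.mod_eq_of_lt h3] at this
        omega
      · have h4 : X (q + dir e * (X i - (r + 1) : ℕ)) + 1 = N := by omega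
        rw [h4, Nat.mod_self] at this
        omega
  refine ⟨q, e, x0, x1, hqi, rfl, hx0a, hx1a, hx1b,
    ⟨fun k _ hk => (hr k (by omega)).1, fun k _ hk => (hr k (by omega)).2, heA, ?_⟩, ?_, ?_⟩
  · intro k hk hk2
    rcases Nat.lt_or_ge k (X i) with h | h
    · have := hxD (X i - k) (by omega) (by omega)
      have h2 : X i - (X i - k) = k := by omega
      rw [h2] at this
      exact this
    · exact hxU k h hk2
  · intro h
    exact ⟨(hr _ (by omega)).1, (hr _ (by omega)).2, hx1d h⟩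
  · intro h
    exact ⟨(hr _ (by omega)).1, (hr _ (by omega)).2, hx0d h⟩

/-- offset of block coordinate `k` in a block -/
def off (N : ℕ) (e : Bool) (k : ℤ) : ℤ := if e then k else N - 1 - k

/-- first coordinate of the parametrisation of a block -/
def qof (N : ℕ) (c : ℤ) (e : Bool) : ℤ := if e then c else c + N - 1

/-- a block: `N` consecutive columns starting at `c`, with all positions -/
def Blk (N : ℕ) (m : ℤ) (ex : ℤ → Bool) (X : ℤ → ℕ) (c : ℤ) (e : Bool) : Prop :=
  Run m ex X (qof N c e) e 0 (N - 1)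

theorem Blk.mem {N : ℕ} (hN : 1 ≤ N) {m : ℤ} {ex : ℤ → Bool} {X : ℤ → ℕ} {c : ℤ} {e : Bool}
    (h : Blk N m ex X c e) {i : ℤ} (h1 : c ≤ i) (h2 : i < c + N) :
    0 ≤ i ∧ i < m ∧ ex i = e ∧ (X i : ℤ) = if e then i - c else c + N - 1 - i := by
  cases e with
  | true =>
    obtain ⟨k, hk⟩ := Int.eq_ofNat_of_zero_le (by linarith : 0 ≤ i - c)
    have e1 : qof N c true + dir true * (k : ℕ) = i := by
      simp only [qof, if_true, dir_true]; push_cast; linarith
    have a := h.in0 k (by omega) (by omega)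
    have b := h.in1 k (by omega) (by omega)
    have c := h.ee k (by omega) (by omega)
    have d := h.xx k (by omega) (by omega)
    rw [e1] at a b c d
    refine ⟨a, b, c, ?_⟩
    rw [d]; simp; exact hk.symm
  | false =>
    obtain ⟨k, hk⟩ := Int.eq_ofNat_of_zero_le (by linarith : 0 ≤ c + N - 1 - i)
    have e1 : qof N c false + dir false * (k : ℕ) = i := by
      simp only [qof, Bool.false_eq_true, if_false, dir_false]; push_cast; linarith
    have a := h.in0 k (by omega) (by omega)
    have b := h.in1 k (by omega) (by omega)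
    have c := h.ee k (by omega) (by omega)
    have d := h.xx k (by omega) (by omega)
    rw [e1] at a b c d
    refine ⟨a, b, c, ?_⟩
    rw [d]; simp; exact hk.symm

/-- the next block starts right after a block -/
theorem Blk.next {N : ℕ} (hN : 1 ≤ N) {m : ℤ} {ex : ℤ → Bool} {X : ℤ → ℕ} {c c' : ℤ} {e e' : Bool}
    (h : Blk N m ex X c e) (h' : Blk N m ex X c' e') (h1 : c' ≤ c + N) (h2 : c + N < c' + N) :
    c' = c + N := by
  by_contra hne
  have h3 : c' ≤ c + N - 1 := by omega
  have a := h.mem hN (i := c + N - 1) (by omega) (by omega)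
  have b := h'.mem hN (i := c + N - 1) h3 (by omega)
  have he : e = e' := a.2.2.1.symm.trans b.2.2.1
  subst he
  cases e
  · simp only [Bool.false_eq_true, if_false] at a b
    have := a.2.2.2.symm.trans b.2.2.2
    omega
  · simp only [if_true] at a b
    have := a.2.2.2.symm.trans b.2.2.2
    omega

/-- the whole strip is cut into blocks -/
theorem blocks {N : ℕ} (hN : 1 ≤ N) {m : ℤ} {ex : ℤ → Bool} {X : ℤ → ℕ}
    (hfull : ∀ i : ℤ, (N : ℤ) ≤ i → i + N < m → ∃ c e, Blk N m ex X c e ∧ c ≤ i ∧ i < c + N)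
    (m' : ℕ) (hm' : 1 ≤ m') (hm : (N : ℤ) * (m' + 2) ≤ m) :
    ∃ c0 : ℤ, ∀ a : ℕ, a < m' → Blk N m ex X (c0 + a * N) (ex (c0 + a * N)) := by
  have hN' : (1 : ℤ) ≤ N := by exact_mod_cast hN
  have hm1 : (1 : ℤ) ≤ m' := by exact_mod_cast hm'
  have h3 : (3 : ℤ) * N ≤ m := by nlinarith
  obtain ⟨c0, e0, hb, hc1, hc2⟩ := hfull N le_rfl (by linarith)
  have hself : ∀ c e, Blk N m ex X c e → Blk N m ex X c (ex c) := by
    intro c e h
    have := (h.mem hN (i := c) le_rfl (by linarith)).2.2.1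
    rw [this]; exact h
  refine ⟨c0, ?_⟩
  intro a
  induction a with
  | zero =>
    intro _
    have := hself _ _ hb
    simpa using this
  | succ a ih =>
    intro ha
    have hb' := ih (by omega)
    have ha' : (a : ℤ) + 1 < m' := by exact_mod_cast ha
    have e1 : c0 + ((a + 1 : ℕ) : ℤ) * N = c0 + a * N + N := by push_cast; ring
    obtain ⟨c', e', hbb, h1, h2⟩ := hfull (c0 + a * N + N)
      (by
        have : (0 : ℤ) ≤ a * N := by positivity
        have : 0 < c0 := by linarith
        linarith)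
      (by nlinarith)
    have := Blk.next hN hb' hbb h1 h2
    rw [e1]
    rw [this] at hbb
    exact hself _ _ hbb

end Pool.Agent.VHD
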