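import Pool.Agent.VHD.Descent

/-!
# VHD/Tower : towers of simulations

helper33, for `MP_720b7c_al`.
-/

set_option autoImplicit false

namespace Pool.Agent.VHD

open Pool.Agent.VHG

theorem NoFolded.of_empty {T V H : Type} [IsEmpty T] (S : Tiles T V H) (m : ℤ) : NoFolded S m :=
  fun F _ _ _ => isEmptyElim (F 0 0)

/-- if a level of the tower has no tiles, level `0` has no large folded patch -/
theorem tower_no (h : ℕ) : ∀ {T V H : ℕ → Type} (S : ∀ k, Tiles (T k) (V k) (H k)) (N : ℕ → ℕ)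
    (_ : ∀ k, k < h → Nonempty (Sim (S k) (S (k + 1)) (N k))) (_ : IsEmpty (T h)),
    ∃ m : ℕ, 1 ≤ m ∧ NoFolded (S 0) m := by
  induction h with
  | zero =>
    intro T V H S N _ he
    exact ⟨1, le_rfl, NoFolded.of_empty _ _⟩
  | succ h ih =>
    intro T V H S N M he
    obtain ⟨m, hm, hno⟩ := ih (fun k => S (k + 1)) (fun k => N (k + 1))
      (fun k hk => M (k + 1) (by omega)) he
    obtain ⟨M0⟩ := M 0 (by omega)
    refine ⟨N 0 * (m + 2), ?_, hno.up M0 m hm⟩
    have := M0.N1
    exact Nat.mul_pos this (by omega)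

theorem HasPatch.mono {T V H : Type} {S : Tiles T V H} {n n1 : ℕ} (h : HasPatch S n) (h1 : n1 ≤ n) :
    HasPatch S n1 := by
  obtain ⟨F, a, b⟩ := h
  exact ⟨F, fun i j hi hj => a i j (by omega) (by omega),
    fun i j hi hj => b i j (by omega) (by omega)⟩

/-- the expansion of a tile at level `h` is a patch at level `0` of size at least `2 ^ h` -/
theorem tower_pow (h : ℕ) : ∀ {T V H : ℕ → Type} (S : ∀ k, Tiles (T k) (V k) (H k)) (N : ℕ → ℕ)
    (_ : ∀ k, k < h → 2 ≤ N k)
    (_ : ∀ k, k < h → Nonempty (Sim (S k) (S (k + 1)) (N k))) (_ : Nonempty (T h)),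
    HasPatch (S 0) (2 ^ h) := by
  induction h with
  | zero =>
    intro T V H S N _ _ ⟨t⟩
    exact ⟨fun _ _ => t, fun i j hi hj => by omega, fun i j hi hj => by omega⟩
  | succ h ih =>
    intro T V H S N hN M hne
    have h1 := ih (fun k => S (k + 1)) (fun k => N (k + 1)) (fun k hk => hN (k + 1) (by omega))
      (fun k hk => M (k + 1) (by omega)) hne
    obtain ⟨M0⟩ := M 0 (by omega)
    have h2 := HasPatch.up M0 h1
    refine h2.mono ?_
    have := hN 0 (by omega)
    rw [pow_succ, mul_comm]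
    exact Nat.mul_le_mul_right _ this

/-- if all levels are nonempty, level `0` has patches of every size -/
theorem tower_has {T V H : ℕ → Type} (S : ∀ k, Tiles (T k) (V k) (H k)) (N : ℕ → ℕ)
    (hN : ∀ k, 2 ≤ N k) (M : ∀ k, Nonempty (Sim (S k) (S (k + 1)) (N k)))
    (hne : ∀ k, Nonempty (T k)) (n : ℕ) : HasPatch (S 0) n :=
  (tower_pow n S N (fun k _ => hN k) (fun k _ => M k) (hne n)).mono Nat.lt_two_pow_self.le

end Pool.Agent.VHD
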