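import Pool.Agent.VHD.Descent

/-!
# VHD/TrimDefs : simulation of tile sets, with folds allowed one cell away from the block sides

Project for `MP_720b7c_al` (helper33).  `SimT S S' N` : as `Sim`, but inside a block folds are allowed
at the four lines next to the block sides (between the columns `N-2`, `N-1`, on the side of `N-2`;
between the columns `0`, `1`, on the side of `1`; same for rows).  The block next to such a fold is
incomplete, and still determines its tile of `S'`.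
-/

set_option autoImplicit false

namespace Pool.Agent.VHD

open Pool.Agent.VHG

variable {T V H T' V' H' : Type}

/-- Richness up to the border: a box inside a block which does not contain the inner square
`[1, N-2] × [1, N-2]` has a side which cannot carry a fold and which is neither a block side nor a
line next to a block side (seen from the inside). -/
structure RichT (S : Tiles T V H) (N : ℕ) (P : Pos S N) : Prop where
  box : ∀ (u : ℕ → ℕ → T) (x0 x1 y0 y1 : ℕ), x0 ≤ x1 → x1 < N → y0 ≤ y1 → y1 < N →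
    ¬ (x0 ≤ 1 ∧ N ≤ x1 + 2 ∧ y0 ≤ 1 ∧ N ≤ y1 + 2) →
    (∀ x y, x0 ≤ x → x ≤ x1 → y0 ≤ y → y ≤ y1 → P.px (u x y) = x ∧ P.py (u x y) = y) →
    Patch S u x0 x1 y0 y1 →
    (x1 + 2 < N ∧ RichR S u x1 y0 y1) ∨ (1 < x0 ∧ RichL S u x0 y0 y1) ∨
    (y1 + 2 < N ∧ RichU S u x0 x1 y1) ∨ (1 < y0 ∧ RichB S u x0 x1 y0)

/-- The tiles of `S` form `N × N` blocks which behave like the tiles of `S'`; folds in a block are
possible only next to its sides. -/
structure SimT (S : Tiles T V H) (S' : Tiles T' V' H') (N : ℕ) where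
  N4 : 4 ≤ N
  pos : Pos S N
  rich : RichT S N pos
  /-- expansion of a tile of `S'` into an `N × N` block of `S` -/
  exp : T' → ℕ → ℕ → T
  exp_patch : ∀ t, Patch S (exp t) 0 (N - 1) 0 (N - 1)
  exp_RL : ∀ s t, S'.R s = S'.L t → ∀ y, y < N → S.R (exp s (N - 1) y) = S.L (exp t 0 y)
  exp_UB : ∀ s t, S'.U s = S'.B t → ∀ x, x < N → S.U (exp s x (N - 1)) = S.B (exp t x 0)
  /-- a block without some of its border lines is the restriction of an expansion -/
  desub : ∀ (u : ℕ → ℕ → T) (x0 x1 y0 y1 : ℕ), x0 ≤ 1 → N ≤ x1 + 2 → x1 < N → y0 ≤ 1 →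
    N ≤ y1 + 2 → y1 < N →
    (∀ x y, x0 ≤ x → x ≤ x1 → y0 ≤ y → y ≤ y1 → pos.px (u x y) = x ∧ pos.py (u x y) = y) →
    Patch S u x0 x1 y0 y1 →
    ∃ t, ∀ x y, x0 ≤ x → x ≤ x1 → y0 ≤ y → y ≤ y1 → exp t x y = u x y
  mac_RL : ∀ s t, (∀ y, 1 ≤ y → y + 1 < N → S.R (exp s (N - 1) y) = S.L (exp t 0 y)) →
    S'.R s = S'.L t
  mac_RR : ∀ s t, (∀ y, 1 ≤ y → y + 1 < N → S.R (exp s (N - 1) y) = S.R (exp t (N - 1) y)) →
    S'.R s = S'.R t
  mac_RR2 : ∀ s t, (∀ y, 1 ≤ y → y + 1 < N → S.R (exp s (N - 2) y) = S.R (exp t (N - 2) y)) →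
    S'.R s = S'.R t
  mac_LL : ∀ s t, (∀ y, 1 ≤ y → y + 1 < N → S.L (exp s 0 y) = S.L (exp t 0 y)) → S'.L s = S'.L t
  mac_LL2 : ∀ s t, (∀ y, 1 ≤ y → y + 1 < N → S.L (exp s 1 y) = S.L (exp t 1 y)) → S'.L s = S'.L t
  mac_UB : ∀ s t, (∀ x, 1 ≤ x → x + 1 < N → S.U (exp s x (N - 1)) = S.B (exp t x 0)) →
    S'.U s = S'.B t
  mac_UU : ∀ s t, (∀ x, 1 ≤ x → x + 1 < N → S.U (exp s x (N - 1)) = S.U (exp t x (N - 1))) →
    S'.U s = S'.U t
  mac_UU2 : ∀ s t, (∀ x, 1 ≤ x → x + 1 < N → S.U (exp s x (N - 2)) = S.U (exp t x (N - 2))) →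
    S'.U s = S'.U t
  mac_BB : ∀ s t, (∀ x, 1 ≤ x → x + 1 < N → S.B (exp s x 0) = S.B (exp t x 0)) → S'.B s = S'.B t
  mac_BB2 : ∀ s t, (∀ x, 1 ≤ x → x + 1 < N → S.B (exp s x 1) = S.B (exp t x 1)) → S'.B s = S'.B t

theorem RichT.tr {S : Tiles T V H} {N : ℕ} {P : Pos S N} (R : RichT S N P) :
    RichT S.tr N P.tr where
  box := by
    intro u x0 x1 y0 y1 h1 h2 h3 h4 h5 hp hu
    have := R.box (fun a b => u b a) y0 y1 x0 x1 h3 h4 h1 h2
      (fun h => h5 ⟨h.2.2.1, h.2.2.2, h.1, h.2.1⟩)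
      (fun x y a b c d => ⟨(hp y x c d a b).2, (hp y x c d a b).1⟩) hu.tr
    rcases this with h | h | h | h
    · exact Or.inr (Or.inr (Or.inl h))
    · exact Or.inr (Or.inr (Or.inr h))
    · exact Or.inl h
    · exact Or.inr (Or.inl h)

/-- transposed simulation -/
def SimT.tr {S : Tiles T V H} {S' : Tiles T' V' H'} {N : ℕ} (M : SimT S S' N) :
    SimT S.tr S'.tr N where
  N4 := M.N4
  pos := M.pos.tr
  rich := M.rich.tr
  exp := fun t x y => M.exp t y x
  exp_patch := fun t => (M.exp_patch t).tr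
  exp_RL := fun s t h y hy => M.exp_UB s t h y hy
  exp_UB := fun s t h x hx => M.exp_RL s t h x hx
  desub := by
    intro u x0 x1 y0 y1 a b c d e f hp hu
    obtain ⟨t, ht⟩ := M.desub (fun a b => u b a) y0 y1 x0 x1 d e f a b c
      (fun x y a b c d => ⟨(hp y x c d a b).2, (hp y x c d a b).1⟩) hu.tr
    exact ⟨t, fun x y a b c d => ht y x c d a b⟩
  mac_RL := fun s t h => M.mac_UB s t h
  mac_RR := fun s t h => M.mac_UU s t h
  mac_RR2 := fun s t h => M.mac_UU2 s t h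
  mac_LL := fun s t h => M.mac_BB s t h
  mac_LL2 := fun s t h => M.mac_BB2 s t h
  mac_UB := fun s t h => M.mac_RL s t h
  mac_UU := fun s t h => M.mac_RR s t h
  mac_UU2 := fun s t h => M.mac_RR2 s t h
  mac_BB := fun s t h => M.mac_LL s t h
  mac_BB2 := fun s t h => M.mac_LL2 s t h

end Pool.Agent.VHD
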