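import Pool.Agent.VHD.TrimDefs
import Pool.Agent.VHD.Tower

/-!
# VHD/TrimDescent : the descent with incomplete blocks

helper33, for `MP_720b7c_al`.
-/

set_option autoImplicit false

namespace Pool.Agent.VHD

open Pool.Agent.VHG

variable {T V H T' V' H' : Type}

/-- first coordinate of the parametrisation of a piece starting (geometrically) at `c` -/
def qt (c : ℤ) (e : Bool) (x0 x1 : ℕ) : ℤ := if e then c - x0 else c + x1

/-- a maximal piece of columns, with positions `[x0,x1]`, orientation `e`, first column `c` -/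
structure Pc (N : ℕ) (m : ℤ) (ex : ℤ → Bool) (X : ℤ → ℕ) (c : ℤ) (e : Bool) (x0 x1 : ℕ) :
    Prop where
  lo : x0 ≤ 1
  hi : N ≤ x1 + 2
  lt : x1 < N
  run : Run m ex X (qt c e x0 x1) e x0 x1
  fR : x1 + 1 < N → ex (qt c e x0 x1 + dir e * (x1 + 1 : ℕ)) ≠ e
  fL : 0 < x0 → ex (qt c e x0 x1 + dir e * (x0 - 1 : ℕ)) ≠ e

theorem Pc.mem {N : ℕ} {m : ℤ} {ex : ℤ → Bool} {X : ℤ → ℕ} {c : ℤ} {e : Bool} {x0 x1 : ℕ}
    (h : Pc N m ex X c e x0 x1) {i : ℤ} (h1 : c ≤ i) (h2 : i ≤ c + (x1 - x0)) :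
    0 ≤ i ∧ i < m ∧ ex i = e ∧ (X i : ℤ) = if e then i - c + x0 else c + x1 - i := by
  cases e with
  | true =>
    obtain ⟨k, hk⟩ := Int.eq_ofNat_of_zero_le (by omega : 0 ≤ i - c + x0)
    have e1 : qt c true x0 x1 + dir true * (k : ℕ) = i := by
      simp only [qt, if_true, dir_true]; omega
    have a := h.run.in0 k (by omega) (by omega)
    have b := h.run.in1 k (by omega) (by omega)
    have c := h.run.ee k (by omega) (by omega)
    have d := h.run.xx k (by omega) (by omega)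
    rw [e1] at a b c d
    refine ⟨a, b, c, ?_⟩
    rw [d]; simp; exact hk.symm
  | false =>
    obtain ⟨k, hk⟩ := Int.eq_ofNat_of_zero_le (by omega : 0 ≤ c + x1 - i)
    have e1 : qt c false x0 x1 + dir false * (k : ℕ) = i := by
      simp only [qt, Bool.false_eq_true, if_false, dir_false]; omega
    have a := h.run.in0 k (by omega) (by omega)
    have b := h.run.in1 k (by omega) (by omega)
    have c := h.run.ee k (by omega) (by omega)
    have d := h.run.xx k (by omega) (by omega)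
    rw [e1] at a b c d
    refine ⟨a, b, c, ?_⟩
    rw [d]; simp; exact hk.symm

theorem Pc.fR' {N : ℕ} {m : ℤ} {ex : ℤ → Bool} {X : ℤ → ℕ} {c : ℤ} {x0 x1 : ℕ}
    (h : Pc N m ex X c true x0 x1) (h1 : x1 + 1 < N) : ex (c + (x1 - x0) + 1) ≠ true := by
  have := h.fR h1
  have e1 : qt c true x0 x1 + dir true * (x1 + 1 : ℕ) = c + (x1 - x0) + 1 := by
    simp only [qt, if_true, dir_true]; push_cast; ring
  rwa [e1] at this

theorem Pc.fL' {N : ℕ} {m : ℤ} {ex : ℤ → Bool} {X : ℤ → ℕ} {c : ℤ} {x0 x1 : ℕ}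
    (h : Pc N m ex X c false x0 x1) (h1 : 0 < x0) : ex (c + (x1 - x0) + 1) ≠ false := by
  have := h.fL h1
  have e1 : qt c false x0 x1 + dir false * (x0 - 1 : ℕ) = c + (x1 - x0) + 1 := by
    simp only [qt, Bool.false_eq_true, if_false, dir_false]
    rw [Nat.cast_sub (by omega)]; push_cast; ring
  rwa [e1] at this

/-- the next piece starts right after a piece -/
theorem Pc.next {N : ℕ} (hN : 4 ≤ N) {m : ℤ} {ex : ℤ → Bool} {X : ℤ → ℕ} {c c' : ℤ} {e e' : Bool}
    {x0 x1 x0' x1' : ℕ} (h : Pc N m ex X c e x0 x1) (h' : Pc N m ex X c' e' x0' x1')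
    (h1 : c' ≤ c + (x1 - x0) + 1) (h2 : c + (x1 - x0) + 1 ≤ c' + (x1' - x0')) :
    c' = c + (x1 - x0) + 1 := by
  by_contra hne
  have hx : x0 ≤ x1 := by have := h.lo; have := h.hi; omega
  have a := h.mem (i := c + (x1 - x0)) (by omega) (by omega)
  have b := h'.mem (i := c + (x1 - x0)) (by omega) (by omega)
  have d := h'.mem (i := c + (x1 - x0) + 1) (by omega) (by omega)
  have he : e = e' := a.2.2.1.symm.trans b.2.2.1
  subst he
  have hlt := h'.lt
  cases e
  · simp only [Bool.false_eq_true, if_false] at a b d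
    exact h.fL' (by omega) d.2.2.1
  · simp only [if_true] at a b d
    exact h.fR' (by omega) d.2.2.1

/-- the strip is cut into consecutive pieces -/
theorem pieces {N : ℕ} (hN : 4 ≤ N) {m : ℤ} {ex : ℤ → Bool} {X : ℤ → ℕ}
    (hfull : ∀ i : ℤ, (N : ℤ) ≤ i → i + N < m →
      ∃ c e x0 x1, Pc N m ex X c e x0 x1 ∧ c ≤ i ∧ i ≤ c + (x1 - x0))
    (m' : ℕ) (hm : (N : ℤ) * (m' + 2) ≤ m) :
    ∃ (c : ℕ → ℤ) (e : ℕ → Bool) (x0 x1 : ℕ → ℕ),
      (∀ a, a < m' → Pc N m ex X (c a) (e a) (x0 a) (x1 a)) ∧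
      (∀ a, a + 1 < m' → c (a + 1) = c a + (x1 a - x0 a) + 1) := by
  classical
  have hN' : (4 : ℤ) ≤ N := by exact_mod_cast hN
  choose! C E X0 X1 hP h1 h2 using hfull
  let I : ℕ → ℤ := fun a => Nat.rec (N : ℤ) (fun _ i => C i + (X1 i - X0 i) + 1) a
  have I0 : I 0 = N := rfl
  have I1 : ∀ a, I (a + 1) = C (I a) + (X1 (I a) - X0 (I a)) + 1 := fun a => rfl
  have hI : ∀ a : ℕ, a < m' → (N : ℤ) ≤ I a ∧ I a ≤ N + a * N := by
    intro a
    induction a with
    | zero => intro _; rw [I0]; constructor <;> push_cast <;> linarith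
    | succ a ih =>
      intro ha
      obtain ⟨i1, i2⟩ := ih (by omega)
      have ha' : (a : ℤ) + 1 < m' := by exact_mod_cast ha
      have i3 : I a + N < m := by nlinarith
      have p := hP (I a) i1 i3
      have p1 := h1 (I a) i1 i3
      have p2 := h2 (I a) i1 i3
      have p3 := p.lt
      rw [I1]
      constructor
      · linarith
      · push_cast
        have : (X1 (I a) : ℤ) + 1 ≤ N := by exact_mod_cast p3
        nlinarith
  have hI2 : ∀ a : ℕ, a < m' → I a + N < m := by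
    intro a ha
    have ha' : (a : ℤ) + 1 ≤ m' := by exact_mod_cast ha
    have := (hI a ha).2
    nlinarith
  refine ⟨fun a => C (I a), fun a => E (I a), fun a => X0 (I a), fun a => X1 (I a), ?_, ?_⟩
  · intro a ha
    exact hP (I a) (hI a ha).1 (hI2 a ha)
  · intro a ha
    have p := hP (I a) (hI a (by omega)).1 (hI2 a (by omega))
    have p' := hP (I (a + 1)) (hI (a + 1) ha).1 (hI2 (a + 1) ha)
    have q1 := h1 (I (a + 1)) (hI (a + 1) ha).1 (hI2 (a + 1) ha)
    have q2 := h2 (I (a + 1)) (hI (a + 1) ha).1 (hI2 (a + 1) ha)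
    have e1 := I1 a
    exact Pc.next hN p p' (by rw [← e1]; exact q1) (by rw [← e1]; exact q2)

section
variable {S : Tiles T V H} {m n : ℤ} {F : ℤ → ℤ → T} {ex ey : ℤ → Bool}

/-- every interior column lies in a piece which contains the positions `[1, N-2]` -/
theorem Folded.pc {N : ℕ} {P : Pos S N} (R : RichT S N P)
    (h : Folded S m n F ex ey) (hn : 2 * (N : ℤ) < n) (i : ℤ) (hi : (N : ℤ) ≤ i) (hi' : i + N < m) :
    ∃ c e x0 x1, Pc N m ex (fun i => P.px (F i 0)) c e x0 x1 ∧ c ≤ i ∧ i ≤ c + (x1 - x0) := by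
  have hm0 : 0 < m := by omega
  have hn0 : 0 < n := by omega
  obtain ⟨q, e, x0, x1, h1, h2, h3, h4, h5, hr, hfR, hfL⟩ := (h.seq hn0 P).piece i hi hi'
  obtain ⟨p, f, y0, y1, g1, g2, g3, g4, g5, hs, gfR, gfL⟩ :=
    (h.tr.seq hm0 P.tr).piece N le_rfl (by linarith)
  have hx01 : x0 ≤ x1 := h3.trans h4
  have hy01 : y0 ≤ y1 := g3.trans g4
  have hpos : ∀ x y : ℕ, x0 ≤ x → x ≤ x1 → y0 ≤ y → y ≤ y1 →
      P.px ((fun x y : ℕ => F (q + dir e * x) (p + dir f * y)) x y) = x ∧
      P.py ((fun x y : ℕ => F (q + dir e * x) (p + dir f * y)) x y) = y := by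
    intro x y a b c d
    have k1 := h.pxcol P (hr.in0 x a b) (hr.in1 x a b) (hs.in0 y c d) (hs.in1 y c d)
    have k2 := h.tr.pxcol P.tr (hs.in0 y c d) (hs.in1 y c d) (hr.in0 x a b) (hr.in1 x a b)
    exact ⟨k1.trans (hr.xx x a b), k2.trans (hs.xx y c d)⟩
  have hpt := h.patch hr hs
  by_cases hx : x0 ≤ 1 ∧ N ≤ x1 + 2
  · have hX : x0 ≤ P.px (F i 0) ∧ P.px (F i 0) ≤ x1 := ⟨h3, h4⟩
    have hqi : q + dir e * (P.px (F i 0) : ℕ) = i := h1
    cases e with
    | true =>
      simp only [dir_true] at hqi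
      have e1 : qt (q + x0) true x0 x1 = q := by simp only [qt, if_true]; ring
      refine ⟨q + x0, true, x0, x1, ⟨hx.1, hx.2, h5, by rw [e1]; exact hr, ?_, ?_⟩, by omega, by omega⟩
      · intro hh; rw [e1]; exact (hfR hh).2.2
      · intro hh; rw [e1]; exact (hfL hh).2.2
    | false =>
      simp only [dir_false] at hqi
      have e1 : qt (q - x1) false x0 x1 = q := by
        simp only [qt, Bool.false_eq_true, if_false]; ring
      refine ⟨q - x1, false, x0, x1, ⟨hx.1, hx.2, h5, by rw [e1]; exact hr, ?_, ?_⟩, by omega,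
        by omega⟩
      · intro hh; rw [e1]; exact (hfR hh).2.2
      · intro hh; rw [e1]; exact (hfL hh).2.2
  · exfalso
    rcases R.box _ x0 x1 y0 y1 hx01 h5 hy01 g5 (fun hh => hx ⟨hh.1, hh.2.1⟩) hpos hpt with
      hc | hc | hc | hc
    · exact h.noR hr hs hx01 (hfR (by omega)) hc.2
    · exact h.noL hr hs hx01 (by omega) (hfL (by omega)) hc.2
    · exact h.tr.noR hs hr hy01 (gfR (by omega)) hc.2
    · exact h.tr.noL hs hr hy01 (by omega) (gfL (by omega)) hc.2

end

/-- horizontal adjacency of macro tiles -/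
theorem macT {S : Tiles T V H} {S' : Tiles T' V' H'} {N : ℕ} (M : SimT S S' N) {m n : ℤ}
    {F : ℤ → ℤ → T} {ex ey : ℤ → Bool} (h : Folded S m n F ex ey) (hn : 0 < n) {c c' : ℤ}
    {e e' : Bool} {x0 x1 x0' x1' : ℕ}
    (hb : Pc N m ex (fun i => M.pos.px (F i 0)) c e x0 x1)
    (hb' : Pc N m ex (fun i => M.pos.px (F i 0)) c' e' x0' x1')
    (hcc : c' = c + (x1 - x0) + 1) {t t' : T'}
    (row : ℕ → ℤ) (hrow : ∀ y, 1 ≤ y → y + 1 < N → 0 ≤ row y ∧ row y < n)
    (ht : ∀ x y : ℕ, x0 ≤ x → x ≤ x1 → 1 ≤ y → y + 1 < N →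
      M.exp t x y = F (qt c e x0 x1 + dir e * x) (row y))
    (ht' : ∀ x y : ℕ, x0' ≤ x → x ≤ x1' → 1 ≤ y → y + 1 < N →
      M.exp t' x y = F (qt c' e' x0' x1' + dir e' * x) (row y)) :
    S'.rt e t = S'.lt e' t' ∧ (e ≠ e' → t ≠ t') := by
  have hN := M.N4
  have l1 := hb.lo
  have l2 := hb.hi
  have l3 := hb.lt
  have l1' := hb'.lo
  have l2' := hb'.hi
  have l3' := hb'.lt
  have m1 := hb.mem (i := c + (x1 - x0)) (by omega) (by omega)
  have m2 := hb'.mem (i := c') (by omega) (by omega)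
  rw [hcc] at m2
  set i : ℤ := c + (x1 - x0) with hi
  have hX := (h.seq hn M.pos).step
  -- the tiles on both sides of the seam
  have hl : ∀ y, 1 ≤ y → y + 1 < N → F i (row y) = M.exp t (if e then x1 else x0) y := by
    intro y hy hy'
    cases e with
    | true =>
      rw [if_pos rfl, ht x1 y (by omega) le_rfl hy hy']
      congr 1
      simp only [qt, if_true, dir_true]; omega
    | false =>
      rw [if_neg (by simp), ht x0 y le_rfl (by omega) hy hy']
      congr 1
      simp only [qt, Bool.false_eq_true, if_false, dir_false]; omega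
  have hr : ∀ y, 1 ≤ y → y + 1 < N →
      F (i + 1) (row y) = M.exp t' (if e' then x0' else x1') y := by
    intro y hy hy'
    rw [← hcc]
    cases e' with
    | true =>
      rw [if_pos rfl, ht' x0' y le_rfl (by omega) hy hy']
      congr 1
      simp only [qt, if_true, dir_true]; omega
    | false =>
      rw [if_neg (by simp), ht' x1' y (by omega) le_rfl hy hy']
      congr 1
      simp only [qt, Bool.false_eq_true, if_false, dir_false]; omega
  have hh : ∀ y, 1 ≤ y → y + 1 < N → S.rt e (M.exp t (if e then x1 else x0) y) =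
      S.lt e' (M.exp t' (if e' then x0' else x1') y) := by
    intro y hy hy'
    have := h.h i (row y) m1.1 m2.2.1 (hrow y hy hy').1 (hrow y hy hy').2
    rw [m1.2.2.1, m2.2.2.1, hl y hy hy', hr y hy hy'] at this
    exact this
  have hne : e ≠ e' → M.exp t (if e then x1 else x0) 1 ≠ M.exp t' (if e' then x0' else x1') 1 := by
    intro hc
    have := h.hf i (row 1) m1.1 m2.2.1 (hrow 1 le_rfl (by omega)).1
      (hrow 1 le_rfl (by omega)).2 (by rw [m1.2.2.1, m2.2.2.1]; exact hc)
    rw [hl 1 le_rfl (by omega), hr 1 le_rfl (by omega)] at this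
    exact this
  -- positions at the seam
  have hlab := h.h i 0 m1.1 m2.2.1 le_rfl hn
  rw [m1.2.2.1, m2.2.2.1] at hlab
  cases e with
  | true =>
    cases e' with
    | true =>
      simp only [if_true] at m1 m2 hh
      have hx1 : x1 = N - 1 := by
        by_contra hcon
        exact hb.fR' (by omega) (by rw [← hi]; exact m2.2.2.1)
      have hp := (M.pos.RL _ _ hlab).1
      have hx0' : x0' = 0 := by
        have e1 : M.pos.px (F i 0) = N - 1 := by omega
        rw [e1, show N - 1 + 1 = N by omega, Nat.mod_self] at hp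
        omega
      subst hx1 hx0'
      exact ⟨M.mac_RL t t' hh, fun hc => absurd rfl hc⟩
    | false =>
      simp only [if_true, Bool.false_eq_true, if_false] at m1 m2 hh hne
      have hp := (M.pos.RR _ _ hlab).1
      have hx1 : x1' = x1 := by omega
      subst hx1
      refine ⟨?_, fun _ hc => hne (by simp) (by rw [hc])⟩
      rcases Nat.lt_or_ge (x1' + 1) N with h1 | h1
      · have : x1' = N - 2 := by omega
        subst this
        exact M.mac_RR2 t t' hh
      · have : x1' = N - 1 := by omega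
        subst this
        exact M.mac_RR t t' hh
  | false =>
    cases e' with
    | true =>
      simp only [if_true, Bool.false_eq_true, if_false] at m1 m2 hh hne
      have hp := (M.pos.LL _ _ hlab).1
      have hx0 : x0' = x0 := by omega
      subst hx0
      refine ⟨?_, fun _ hc => hne (by simp) (by rw [hc])⟩
      rcases Nat.eq_zero_or_pos x0' with h1 | h1
      · subst h1
        exact M.mac_LL t t' hh
      · have : x0' = 1 := by omega
        subst this
        exact M.mac_LL2 t t' hh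
    | false =>
      simp only [Bool.false_eq_true, if_false] at m1 m2 hh
      have hx0 : x0 = 0 := by
        by_contra hcon
        exact hb.fL' (by omega) (by rw [← hi]; exact m2.2.2.1)
      have hp := (M.pos.RL _ _ hlab.symm).1
      have hx1' : x1' = N - 1 := by
        have e1 : M.pos.px (F i 0) = 0 := by omega
        have e2 : M.pos.px (F (i + 1) 0) = x1' := by omega
        rw [e1, e2] at hp
        by_contra hcon
        rw [Nat.mod_eq_of_lt (by omega)] at hp
        omega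
      subst hx0 hx1'
      exact ⟨(M.mac_RL t' t (fun y hy hy' => (hh y hy hy').symm)).symm, fun hc => absurd rfl hc⟩

/-- **Descent, with incomplete blocks.** -/
theorem descentT {S : Tiles T V H} {S' : Tiles T' V' H'} {N : ℕ} (M : SimT S S' N) {m n : ℤ}
    {F : ℤ → ℤ → T} {ex ey : ℤ → Bool} (h : Folded S m n F ex ey) (m' n' : ℕ) (hm' : 1 ≤ m')
    (hn' : 1 ≤ n') (hm : (N : ℤ) * (m' + 2) ≤ m) (hn : (N : ℤ) * (n' + 2) ≤ n) :
    ∃ (F' : ℤ → ℤ → T') (ex' ey' : ℤ → Bool), Folded S' m' n' F' ex' ey' := by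
  classical
  have hN := M.N4
  have hN' : (4 : ℤ) ≤ N := by exact_mod_cast hN
  have hm1 : (1 : ℤ) ≤ m' := by exact_mod_cast hm'
  have hn1 : (1 : ℤ) ≤ n' := by exact_mod_cast hn'
  have hm2 : 2 * (N : ℤ) < m := by nlinarith
  have hn2 : 2 * (N : ℤ) < n := by nlinarith
  obtain ⟨c, e, x0, x1, hc, hc1⟩ := pieces hN (fun i hi hi' => h.pc M.rich hn2 i hi hi') m' hm
  obtain ⟨r, f, y0, y1, hr, hr1⟩ :=
    pieces hN (fun i hi hi' => h.tr.pc M.rich.tr hm2 i hi hi') n' hn
  have hex : ∀ a b : ℕ, a < m' → b < n' → ∃ t : T', ∀ x y : ℕ, x0 a ≤ x → x ≤ x1 a → y0 b ≤ y →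
      y ≤ y1 b → M.exp t x y = F (qt (c a) (e a) (x0 a) (x1 a) + dir (e a) * x)
        (qt (r b) (f b) (y0 b) (y1 b) + dir (f b) * y) := by
    intro a b h1 h2
    have pa := hc a h1
    have pb := hr b h2
    refine M.desub (fun x y => F (qt (c a) (e a) (x0 a) (x1 a) + dir (e a) * x)
        (qt (r b) (f b) (y0 b) (y1 b) + dir (f b) * y)) _ _ _ _ pa.lo pa.hi pa.lt pb.lo pb.hi pb.lt
        ?_ (h.patch pa.run pb.run)
    intro x y a1 a2 b1 b2
    have i1 := pa.run.in0 x a1 a2
    have i2 := pa.run.in1 x a1 a2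
    have i3 := pa.run.xx x a1 a2
    have j1 := pb.run.in0 y b1 b2
    have j2 := pb.run.in1 y b1 b2
    have j3 := pb.run.xx y b1 b2
    exact ⟨(h.pxcol M.pos i1 i2 j1 j2).trans i3, (h.tr.pxcol M.pos.tr j1 j2 i1 i2).trans j3⟩
  obtain ⟨t0, -⟩ := hex 0 0 (by omega) (by omega)
  have hex2 : ∀ a b : ℕ, ∃ t : T', a < m' → b < n' → ∀ x y : ℕ, x0 a ≤ x → x ≤ x1 a → y0 b ≤ y →
      y ≤ y1 b → M.exp t x y = F (qt (c a) (e a) (x0 a) (x1 a) + dir (e a) * x)
        (qt (r b) (f b) (y0 b) (y1 b) + dir (f b) * y) := by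
    intro a b
    by_cases hh : a < m' ∧ b < n'
    · obtain ⟨t, ht⟩ := hex a b hh.1 hh.2
      exact ⟨t, fun _ _ => ht⟩
    · exact ⟨t0, fun h1 h2 => absurd ⟨h1, h2⟩ hh⟩
  choose F' hF' using hex2
  have hH : ∀ a b : ℕ, a + 1 < m' → b < n' →
      S'.rt (e a) (F' a b) = S'.lt (e (a + 1)) (F' (a + 1) b) ∧
      (e a ≠ e (a + 1) → F' a b ≠ F' (a + 1) b) := by
    intro a b h1 h2
    have pb := hr b h2
    have b1 := pb.lo
    have b2 := pb.hi
    exact macT M h (by omega) (hc a (by omega)) (hc (a + 1) h1) (hc1 a h1)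
      (fun y => qt (r b) (f b) (y0 b) (y1 b) + dir (f b) * y)
      (fun y hy hy' => ⟨pb.run.in0 y (by omega) (by omega), pb.run.in1 y (by omega) (by omega)⟩)
      (fun x y a1 a2 b1 b2 => hF' a b (by omega) h2 x y a1 a2 (by omega) (by omega))
      (fun x y a1 a2 b1 b2 => hF' (a + 1) b h1 h2 x y a1 a2 (by omega) (by omega))
  have hV : ∀ a b : ℕ, a < m' → b + 1 < n' →
      S'.up (f b) (F' a b) = S'.dn (f (b + 1)) (F' a (b + 1)) ∧
      (f b ≠ f (b + 1) → F' a b ≠ F' a (b + 1)) := by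
    intro a b h1 h2
    have pa := hc a h1
    have a1 := pa.lo
    have a2 := pa.hi
    exact macT M.tr h.tr (by omega) (hr b (by omega)) (hr (b + 1) h2) (hr1 b h2)
      (fun x => qt (c a) (e a) (x0 a) (x1 a) + dir (e a) * x)
      (fun x hx hx' => ⟨pa.run.in0 x (by omega) (by omega), pa.run.in1 x (by omega) (by omega)⟩)
      (fun x y a1 a2 b1 b2 => hF' a b h1 (by omega) y x (by omega) (by omega) a1 a2)
      (fun x y a1 a2 b1 b2 => hF' a (b + 1) h1 h2 y x (by omega) (by omega) a1 a2)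
  refine ⟨fun a b => F' a.toNat b.toNat, fun a => e a.toNat, fun b => f b.toNat, ?_, ?_, ?_, ?_⟩
  · intro a b h1 h2 h3 h4
    have e1 : (a + 1).toNat = a.toNat + 1 := by omega
    simp only [e1]
    exact (hH a.toNat b.toNat (by omega) (by omega)).1
  · intro a b h1 h2 h3 h4
    have e1 : (b + 1).toNat = b.toNat + 1 := by omega
    simp only [e1]
    exact (hV a.toNat b.toNat (by omega) (by omega)).1
  · intro a b h1 h2 h3 h4
    have e1 : (a + 1).toNat = a.toNat + 1 := by omega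
    simp only [e1]
    exact (hH a.toNat b.toNat (by omega) (by omega)).2
  · intro a b h1 h2 h3 h4
    have e1 : (b + 1).toNat = b.toNat + 1 := by omega
    simp only [e1]
    exact (hV a.toNat b.toNat (by omega) (by omega)).2

end Pool.Agent.VHD
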