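import Pool.Agent.VHD.TrimDescent

/-!
# VHD/TrimTower : towers of simulations with incomplete blocks

helper33, for `MP_720b7c_al`.  Main results: `no_isFolded` and `hasPatches`.
-/

set_option autoImplicit false

namespace Pool.Agent.VHD

open Pool.Agent.VHG

theorem NoFolded.upT {T V H T' V' H' : Type} {S : Tiles T V H} {S' : Tiles T' V' H'} {N : ℕ}
    (M : SimT S S' N) (m' : ℕ) (hm' : 1 ≤ m') (h : NoFolded S' m') :
    NoFolded S ((N * (m' + 2) : ℕ) : ℤ) := by
  intro F ex ey hF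
  obtain ⟨F', ex', ey', hF'⟩ := descentT M hF m' m' hm' hm' (by push_cast; exact le_rfl)
    (by push_cast; exact le_rfl)
  exact h F' ex' ey' hF'

/-- patches of the simulated tiles expand -/
theorem HasPatch.upT {T V H T' V' H' : Type} {S : Tiles T V H} {S' : Tiles T' V' H'} {N : ℕ}
    (M : SimT S S' N) {n : ℕ} (h : HasPatch S' n) : HasPatch S (N * n) := by
  obtain ⟨F, hF1, hF2⟩ := h
  have hN := M.N4
  have key : ∀ i, i + 1 < N * n → (i % N + 1 < N ∧ (i + 1) % N = i % N + 1 ∧ (i + 1) / N = i / N) ∨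
      (i % N = N - 1 ∧ (i + 1) % N = 0 ∧ (i + 1) / N = i / N + 1 ∧ i / N + 1 < n) := by
    intro i hi
    have h1 := Nat.div_add_mod i N
    have h2 := Nat.mod_lt i (show 0 < N by omega)
    rcases Nat.lt_or_ge (i % N + 1) N with h3 | h3
    · left
      have e1 : i + 1 = N * (i / N) + (i % N + 1) := by omega
      refine ⟨h3, ?_, ?_⟩
      · rw [e1, Nat.mul_add_mod, Nat.mod_eq_of_lt h3]
      · rw [e1, Nat.mul_add_div (by omega), Nat.div_eq_of_lt h3, Nat.add_zero]
    · right
      have h4 : i % N = N - 1 := by omega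
      have h5 : i + 1 = N * (i / N + 1) := by
        rw [Nat.mul_add, Nat.mul_one]; omega
      refine ⟨h4, ?_, ?_, ?_⟩
      · rw [h5]; exact Nat.mul_mod_right _ _
      · rw [h5, Nat.mul_div_cancel_left _ (by omega)]
      · rw [h5] at hi
        exact Nat.lt_of_mul_lt_mul_left hi
  have hdiv : ∀ j, j < N * n → j / N < n := fun j hj => Nat.div_lt_of_lt_mul hj
  refine ⟨fun x y => M.exp (F (x / N) (y / N)) (x % N) (y % N), ?_, ?_⟩
  · intro i j hi hj
    have hj2 := Nat.mod_lt j (show 0 < N by omega)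
    rcases key i hi with ⟨a, b, c⟩ | ⟨a, b, c, d⟩
    · simp only [b, c]
      exact (M.exp_patch _).h _ _ (Nat.zero_le _) (by omega) (Nat.zero_le _) (by omega)
    · simp only [a, b, c]
      exact M.exp_RL _ _ (hF1 _ _ d (hdiv j hj)) _ hj2
  · intro i j hi hj
    have hi2 := Nat.mod_lt i (show 0 < N by omega)
    rcases key j hj with ⟨a, b, c⟩ | ⟨a, b, c, d⟩
    · simp only [b, c]
      exact (M.exp_patch _).v _ _ (Nat.zero_le _) (by omega) (Nat.zero_le _) (by omega)
    · simp only [a, b, c]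
      exact M.exp_UB _ _ (hF2 _ _ (hdiv i hi) d) _ hi2

/-- if level `h` of the tower has no folded patch of size `m`, level `0` has none of some size -/
theorem towerT_no (h : ℕ) : ∀ {T V H : ℕ → Type} (S : ∀ k, Tiles (T k) (V k) (H k)) (N : ℕ → ℕ)
    (_ : ∀ k, k < h → Nonempty (SimT (S k) (S (k + 1)) (N k))) (m : ℕ) (_ : 1 ≤ m)
    (_ : NoFolded (S h) m), ∃ m' : ℕ, 1 ≤ m' ∧ NoFolded (S 0) m' := by
  induction h with
  | zero =>
    intro T V H S N _ m hm he
    exact ⟨m, hm, he⟩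
  | succ h ih =>
    intro T V H S N M m hm he
    obtain ⟨m1, hm1, hno⟩ := ih (fun k => S (k + 1)) (fun k => N (k + 1))
      (fun k hk => M (k + 1) (by omega)) m hm he
    obtain ⟨M0⟩ := M 0 (by omega)
    refine ⟨N 0 * (m1 + 2), ?_, hno.upT M0 m1 hm1⟩
    have := M0.N4
    exact Nat.mul_pos (by omega) (by omega)

/-- the expansion of a tile at level `h` is a patch at level `0` of size at least `2 ^ h` -/
theorem towerT_pow (h : ℕ) : ∀ {T V H : ℕ → Type} (S : ∀ k, Tiles (T k) (V k) (H k)) (N : ℕ → ℕ)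
    (_ : ∀ k, k < h → Nonempty (SimT (S k) (S (k + 1)) (N k))) (_ : Nonempty (T h)),
    HasPatch (S 0) (2 ^ h) := by
  induction h with
  | zero =>
    intro T V H S N _ ⟨t⟩
    exact ⟨fun _ _ => t, fun i j hi hj => by omega, fun i j hi hj => by omega⟩
  | succ h ih =>
    intro T V H S N M hne
    have h1 := ih (fun k => S (k + 1)) (fun k => N (k + 1))
      (fun k hk => M (k + 1) (by omega)) hne
    obtain ⟨M0⟩ := M 0 (by omega)
    have h2 := HasPatch.upT M0 h1
    refine h2.mono ?_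
    have := M0.N4
    rw [pow_succ, mul_comm]
    exact Nat.mul_le_mul_right _ (by omega)

theorem IsFolded.folded {T V H : Type} {S : Tiles T V H} {F : ℤ → ℤ → T} {ex ey : ℤ → Bool}
    (h : IsFolded S F ex ey) (m n : ℤ) : Folded S m n F ex ey where
  h := fun i j _ _ _ _ => h.h i j
  v := fun i j _ _ _ _ => h.v i j
  hf := fun i j _ _ _ _ hc => h.hf i j hc
  vf := fun i j _ _ _ _ hc => h.vf i j hc

/-- **No folded tiling of the plane**, if some level of the tower has no tile. -/
theorem no_isFolded {T V H : ℕ → Type} (S : ∀ k, Tiles (T k) (V k) (H k)) (N : ℕ → ℕ) (h : ℕ)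
    (M : ∀ k, k < h → Nonempty (SimT (S k) (S (k + 1)) (N k))) (he : IsEmpty (T h)) :
    ¬ ∃ F ex ey, IsFolded (S 0) F ex ey := by
  rintro ⟨F, ex, ey, hF⟩
  obtain ⟨m, _, hm⟩ := towerT_no h S N M 1 le_rfl (fun F _ _ _ => isEmptyElim (F 0 0))
  exact hm F ex ey (IsFolded.folded hF m m)

/-- **Large patches exist**, if every level of the tower has a tile. -/
theorem hasPatches {T V H : ℕ → Type} (S : ∀ k, Tiles (T k) (V k) (H k)) (N : ℕ → ℕ)
    (M : ∀ k, Nonempty (SimT (S k) (S (k + 1)) (N k))) (hne : ∀ k, Nonempty (T k)) :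
    HasPatches (S 0) := by
  intro n
  obtain ⟨F, a, b⟩ := (towerT_pow n S N (fun k _ => M k) (hne n)).mono Nat.lt_two_pow_self.le
  exact ⟨F, a, b⟩

end Pool.Agent.VHD
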